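import Pool.Agent.Lib.MP_688fd0_co.TF.H17.Inst
import Pool.Agent.Lib.MP_688fd0_co.TE.H92.Gap

/-!
# Theorem F, chains of windows and the merging lemma
-/

namespace Pool.Agent.Lib.MP_688fd0_co.TF.H17

open Pool.Agent.Lib.MP_688fd0_co.TE
open Pool.Agent.Lib.MP_688fd0_co.TE.H92 (gp SW SW_le SW_nonneg)

universe u v

/-- The window from the exit before slot `i` to the entry of slot `i + t`. -/
def wd (pos ent : ℕ → ℕ) (i t : ℕ) : ℕ × ℕ := (pos i, ent (i + t) - pos i)

/-- The list of the windows of a chain. -/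
def wl (pos ent : ℕ → ℕ) : ℕ → List ℕ → ℕ → List (ℕ × ℕ)
  | i, [], r => [wd pos ent i r]
  | i, t :: l, r => wd pos ent i t :: wl pos ent (i + t + 1) l r

/-- The positions of a chain of slots `i0, ..., e0 - 1`. -/
structure Chn (τ : Bool) (pos ent : ℕ → ℕ) (i0 e0 : ℕ) : Prop where
  pe : ∀ j, i0 ≤ j → j < e0 → pos (j + 1) ≤ ent j + 1
  s1 : ∀ i t, i0 ≤ i → i + t ≤ e0 → spw τ (wd pos ent i t) → t = 0
  s2 : ∀ i, i0 ≤ i → i + 1 ≤ e0 → ¬ (spw τ (wd pos ent i 0) ∧ spw τ (wd pos ent (i + 1) 0))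

section list

variable {τ : Bool} {pos ent : ℕ → ℕ} {i0 e0 : ℕ}

theorem wl_length : ∀ (l : List ℕ) (i r : ℕ), (wl pos ent i l r).length = l.length + 1
  | [], i, r => rfl
  | t :: l, i, r => by simp [wl, wl_length l]

theorem wl_sum (h : Chn τ pos ent i0 e0) : ∀ (l : List ℕ) (i r : ℕ), i0 ≤ i →
    i + (l.sum + l.length + r) ≤ e0 →
    ent (i + (l.sum + l.length + r)) ≤
      pos i + ((wl pos ent i l r).map Prod.snd).sum + l.length
  | [], i, r, hi, he => by
    simp only [wl, wd, List.map_cons, List.map_nil, List.sum_cons, List.sum_nil, List.length_nil,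
      Nat.zero_add, Nat.add_zero]
    omega
  | t :: l, i, r, hi, he => by
    have e1 : (t :: l).sum + (t :: l).length + r = t + 1 + (l.sum + l.length + r) := by
      simp only [List.sum_cons, List.length_cons]; ring
    rw [e1] at he ⊢
    have ih := wl_sum h l (i + t + 1) r (by omega) (by omega)
    have e2 : i + t + 1 + (l.sum + l.length + r) = i + (t + 1 + (l.sum + l.length + r)) := by ring
    rw [e2] at ih
    have h2 := h.pe (i + t) (by omega) (by omega)
    simp only [wl, wd, List.map_cons, List.sum_cons, List.length_cons]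
    omega

open Classical in
/-- number of sparse windows -/
noncomputable def sc' (τ : Bool) (ws : List (ℕ × ℕ)) : ℕ := ws.countP (fun p => spw τ p)

open Classical in
theorem sc_cons (p : ℕ × ℕ) (ws : List (ℕ × ℕ)) :
    sc' τ (p :: ws) = sc' τ ws + if spw τ p then 1 else 0 := by
  unfold sc'
  rw [List.countP_cons]
  simp

theorem sc_append (ws ws' : List (ℕ × ℕ)) : sc' τ (ws ++ ws') = sc' τ ws + sc' τ ws' := by
  unfold sc'
  rw [List.countP_append]

theorem sub_le_sc (ws l : List (ℕ × ℕ)) (h : l.Sublist ws) (hl : ∀ p ∈ l, spw τ p) :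
    l.length ≤ sc' τ ws := by
  classical
  unfold sc'
  have h1 : l.countP (fun p => spw τ p) = l.length := by
    rw [List.countP_eq_length]
    intro p hp
    simpa using hl p hp
  rw [← h1]
  exact h.countP_le

open Classical in
theorem wl_count (h : Chn τ pos ent i0 e0) : ∀ (l : List ℕ) (i r : ℕ), i0 ≤ i →
    i + (l.sum + l.length + r) ≤ e0 →
    2 * sc' τ (wl pos ent i l r) ≤ l.length +
      (if ∃ p ∈ (wl pos ent i l r).head?, spw τ p then 1 else 0) +
      (if spw τ (wd pos ent (i + (l.sum + l.length + r)) 0) then 1 else 0)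
  | [], i, r, hi, he => by
    simp only [List.sum_nil, List.length_nil, Nat.zero_add] at he
    simp only [wl, List.head?_cons, Option.mem_def, Option.some.injEq, exists_eq_left',
      List.sum_nil, List.length_nil, Nat.zero_add]
    rw [sc_cons]
    have h0 : sc' τ [] = 0 := rfl
    rw [h0]
    by_cases hs : spw τ (wd pos ent i r)
    · have := h.s1 i r hi he hs
      subst this
      simp [hs]
    · simp [hs]
  | t :: l, i, r, hi, he => by
    have e1 : (t :: l).sum + (t :: l).length + r = t + 1 + (l.sum + l.length + r) := by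
      simp only [List.sum_cons, List.length_cons]; ring
    rw [e1] at he ⊢
    have ih := wl_count h l (i + t + 1) r (by omega) (by omega)
    have e2 : i + t + 1 + (l.sum + l.length + r) = i + (t + 1 + (l.sum + l.length + r)) := by ring
    rw [e2] at ih
    simp only [wl, List.head?_cons, Option.mem_def, Option.some.injEq, exists_eq_left',
      List.length_cons]
    rw [sc_cons]
    by_cases hs : spw τ (wd pos ent i t)
    · have ht := h.s1 i t hi (by omega) hs
      subst ht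
      have hn : ¬ ∃ p ∈ (wl pos ent (i + 0 + 1) l r).head?, spw τ p := by
        rintro ⟨p, hp, hsp⟩
        cases l with
        | nil =>
          simp only [wl, List.head?_cons, Option.mem_def, Option.some.injEq] at hp
          subst hp
          simp only [List.sum_nil, List.length_nil] at he
          have h3 := h.s1 (i + 0 + 1) r (by omega) (by omega) hsp
          subst h3
          exact h.s2 i hi (by omega) ⟨hs, hsp⟩
        | cons t' l' =>
          simp only [wl, List.head?_cons, Option.mem_def, Option.some.injEq] at hp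
          subst hp
          simp only [List.sum_cons, List.length_cons] at he
          have h3 := h.s1 (i + 0 + 1) t' (by omega) (by omega) hsp
          subst h3
          exact h.s2 i hi (by omega) ⟨hs, hsp⟩
      rw [if_neg hn] at ih
      rw [if_pos hs]
      omega
    · rw [if_neg hs]
      split_ifs at ih ⊢ <;> omega

end list

section bounds

variable {G : Type u} [Group G] [Fintype G] [DecidableEq G]

/-- The window bounds. -/
noncomputable def EE (c : Ctx G) (τ : Bool) (pos ent : ℕ → ℕ) (i t : ℕ) : ℝ :=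
  c.gs τ (wd pos ent i t).1 (wd pos ent i t).2

theorem gp_EE (c : Ctx G) (τ : Bool) (pos ent : ℕ → ℕ) : ∀ (l : List ℕ) (i r : ℕ),
    gp (EE c τ pos ent) i l r = ((wl pos ent i l r).map (fun p => c.gs τ p.1 p.2)).prod
  | [], i, r => by simp [gp, wl, EE]
  | t :: l, i, r => by simp [gp, wl, EE, gp_EE c τ pos ent l]

theorem cgs_nonneg (hQ : QQF_S.{u}) (c : Ctx G) (τ : Bool) (i n : ℕ) : 0 ≤ c.gs τ i n := by
  obtain ⟨-, hq, -⟩ := hQ G c τ
  unfold Ctx.gs
  split
  · exact (hq _).le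
  · split
    · exact zero_le_one
    · exact one_div_nonneg.2 (Nat.cast_nonneg _)

theorem EE_nonneg (hQ : QQF_S.{u}) (c : Ctx G) (τ : Bool) (pos ent : ℕ → ℕ) (i t : ℕ) :
    0 ≤ EE c τ pos ent i t := cgs_nonneg hQ c τ _ _

/-- The merging lemma, applied to a list of windows. -/
theorem mrg_le (hM : MRG_S.{u}) (hN : NUMF_S.{u}) (c : Ctx G) (τ : Bool) (ws : List (ℕ × ℕ))
    (r n : ℕ) (hl : ws.length = r + 1) (hr : 1 ≤ r) (hs : 2 * sc' τ ws ≤ r + 2)
    (hsum : 6 * c.k ≤ (ws.map Prod.snd).sum + 8 * r + 40)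
    (hn : n + 4 * sc' τ ws ≤ 4 * r) :
    (ws.map (fun p => c.gs τ p.1 p.2)).prod ≤ 2 * c.q τ * (1 / c.b ^ (1 / 8 : ℝ)) ^ n := by
  obtain ⟨hX, -, -, -, -, hq, hb, hXb, -⟩ := hN G c
  have h1 := (hM G c τ ws r (sc' τ ws) hl hr (fun l h1 h2 => sub_le_sc ws l h1 h2) hs).1 hsum
  refine le_trans h1 ?_
  have hb1 : 1 ≤ c.b := by
    refine le_trans ?_ hXb
    exact one_le_pow₀ (le_trans (by norm_num) hX)
  have h2 : (1 / c.b ^ (1 / 8 : ℝ)) ^ n = 1 / c.b ^ ((n : ℝ) / 8) := by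
    rw [div_pow, one_pow, ← Real.rpow_natCast, ← Real.rpow_mul hb.le]
    congr 2
    ring
  rw [h2, mul_one_div]
  refine div_le_div_of_nonneg_left (by have := hq τ; positivity) (Real.rpow_pos_of_pos hb _) ?_
  refine Real.rpow_le_rpow_of_exponent_le hb1 ?_
  have h3 : (n : ℝ) + 4 * (sc' τ ws : ℝ) ≤ 4 * (r : ℝ) := by exact_mod_cast hn
  linarith

end bounds

section sums

theorem geo_le {ε : ℝ} (h0 : 0 ≤ ε) (h1 : ε ≤ 1 / 2) (n : ℕ) :
    ∑ s ∈ Finset.range n, ε ^ s ≤ 2 := by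
  have h2 : ∑ s ∈ Finset.range n, ε ^ s ≤ ∑ s ∈ Finset.range n, (1 / 2 : ℝ) ^ s :=
    Finset.sum_le_sum fun s _ => pow_le_pow_left₀ h0 h1 s
  refine le_trans h2 ?_
  have h3 : ∀ n : ℕ, ∑ s ∈ Finset.range n, (1 / 2 : ℝ) ^ s = 2 - 2 * (1 / 2) ^ n := by
    intro n
    induction n with
    | zero => simp
    | succ n ih => rw [Finset.sum_range_succ, ih]; ring
  rw [h3]
  have : (0 : ℝ) ≤ (1 / 2) ^ n := by positivity
  linarith

theorem two_sum {E1 E2 : ℕ → ℕ → ℝ} (h1 : ∀ i r, 0 ≤ E1 i r) (h2 : ∀ i r, 0 ≤ E2 i r)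
    {θ δ B : ℝ} (hθ : 0 ≤ θ) (hδ : 0 ≤ δ) (hB : 0 ≤ B) (R i1 r1 i2 r2 : ℕ) (hr1 : r1 ≤ R)
    (hr2 : r2 ≤ R)
    (hgp : ∀ (l1 : List ℕ) (r1' : ℕ) (l2 : List ℕ) (r2' : ℕ), l1.sum + l1.length + r1' = r1 →
      l2.sum + l2.length + r2' = r2 →
      gp E1 i1 l1 r1' * gp E2 i2 l2 r2' ≤ B * δ ^ (l1.length + l2.length))
    (hε : θ * R * δ ≤ 1 / 2) :
    (∑ s ∈ Finset.range (r1 + 1), SW E1 θ s i1 r1) *
      (∑ s ∈ Finset.range (r2 + 1), SW E2 θ s i2 r2) ≤ 4 * B := by
  have hR0 : (0 : ℝ) ≤ R := Nat.cast_nonneg R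
  have hε0 : 0 ≤ θ * R * δ := by positivity
  have key : ∀ s1 s2, SW E1 θ s1 i1 r1 * SW E2 θ s2 i2 r2 ≤
      B * ((θ * R * δ) ^ s1 * (θ * R * δ) ^ s2) := by
    intro s1 s2
    have g1 : ∀ (l2 : List ℕ) (r2' : ℕ), l2.length = s2 → l2.sum + l2.length + r2' = r2 →
        SW E1 θ s1 i1 r1 * gp E2 i2 l2 r2' ≤ (θ * R) ^ s1 * (B * δ ^ (s1 + s2)) := by
      intro l2 r2' hl2 hr2'
      rw [mul_comm]
      refine SW_le h1 hθ R s1 i1 r1 (gp E2 i2 l2 r2') (B * δ ^ (s1 + s2)) hr1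
        (H92.gp_nonneg h2 _ _ _) (by positivity) ?_
      intro l1 r1' hl1 hr1'
      rw [mul_comm, ← hl1, ← hl2]
      exact hgp l1 r1' l2 r2' hr1' hr2'
    have g2 := SW_le h2 hθ R s2 i2 r2 (SW E1 θ s1 i1 r1) ((θ * R) ^ s1 * (B * δ ^ (s1 + s2))) hr2
      (SW_nonneg h1 hθ _ _ _) (by positivity) g1
    refine le_trans g2 (le_of_eq ?_)
    rw [mul_pow (θ * R) δ s1, mul_pow (θ * R) δ s2, pow_add]
    ring
  rw [Finset.sum_mul_sum]
  calc ∑ s1 ∈ Finset.range (r1 + 1), ∑ s2 ∈ Finset.range (r2 + 1),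
        SW E1 θ s1 i1 r1 * SW E2 θ s2 i2 r2
      ≤ ∑ s1 ∈ Finset.range (r1 + 1), ∑ s2 ∈ Finset.range (r2 + 1),
        B * ((θ * R * δ) ^ s1 * (θ * R * δ) ^ s2) :=
        Finset.sum_le_sum fun s1 _ => Finset.sum_le_sum fun s2 _ => key s1 s2
    _ = B * ((∑ s1 ∈ Finset.range (r1 + 1), (θ * R * δ) ^ s1) *
        (∑ s2 ∈ Finset.range (r2 + 1), (θ * R * δ) ^ s2)) := by
        rw [Finset.sum_mul_sum, Finset.mul_sum]
        refine Finset.sum_congr rfl fun s1 _ => ?_
        rw [Finset.mul_sum]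
    _ ≤ B * (2 * 2) := by
        refine mul_le_mul_of_nonneg_left ?_ hB
        exact mul_le_mul (geo_le hε0 hε _) (geo_le hε0 hε _)
          (Finset.sum_nonneg fun s _ => pow_nonneg hε0 s) (by norm_num)
    _ = 4 * B := by ring

theorem one_sum {E : ℕ → ℕ → ℝ} (h : ∀ i r, 0 ≤ E i r) {θ δ B : ℝ} (hθ : 0 ≤ θ) (hδ : 0 ≤ δ)
    (hB : 0 ≤ B) (R i r : ℕ) (hr : r ≤ R)
    (hgp : ∀ (l : List ℕ) (r' : ℕ), l.sum + l.length + r' = r →
      gp E i l r' ≤ B * δ ^ l.length)
    (hε : θ * R * δ ≤ 1 / 2) :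
    ∑ s ∈ Finset.range (r + 1), SW E θ s i r ≤ 2 * B := by
  have hR0 : (0 : ℝ) ≤ R := Nat.cast_nonneg R
  have hε0 : 0 ≤ θ * R * δ := by positivity
  have key : ∀ s, SW E θ s i r ≤ B * (θ * R * δ) ^ s := by
    intro s
    have g := SW_le h hθ R s i r 1 (B * δ ^ s) hr zero_le_one (by positivity) (by
      intro l r' hl hr'
      rw [one_mul, ← hl]
      exact hgp l r' hr')
    rw [one_mul] at g
    refine le_trans g (le_of_eq ?_)
    rw [mul_pow (θ * R) δ s]
    ring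
  calc _ ≤ ∑ s ∈ Finset.range (r + 1), B * (θ * R * δ) ^ s := Finset.sum_le_sum fun s _ => key s
    _ = B * ∑ s ∈ Finset.range (r + 1), (θ * R * δ) ^ s := by rw [Finset.mul_sum]
    _ ≤ B * 2 := mul_le_mul_of_nonneg_left (geo_le hε0 hε _) hB
    _ = 2 * B := by ring

theorem one_sum' {E : ℕ → ℕ → ℝ} (h : ∀ i r, 0 ≤ E i r) {θ δ B : ℝ} (hθ : 0 ≤ θ) (hδ : 0 ≤ δ)
    (hB : 0 ≤ B) (R i r : ℕ) (hr : r ≤ R) (h0 : E i r ≤ B)
    (hgp : ∀ (l : List ℕ) (r' : ℕ), 1 ≤ l.length → l.sum + l.length + r' = r →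
      gp E i l r' ≤ B * δ ^ (l.length - 1))
    (hε : θ * R * δ ≤ 1 / 2) :
    ∑ s ∈ Finset.range (r + 1), SW E θ s i r ≤ B + 2 * (θ * R) * B := by
  have hR0 : (0 : ℝ) ≤ R := Nat.cast_nonneg R
  have hε0 : 0 ≤ θ * R * δ := by positivity
  have key : ∀ s, SW E θ (s + 1) i r ≤ (θ * R) * B * (θ * R * δ) ^ s := by
    intro s
    have g := SW_le h hθ R (s + 1) i r 1 (B * δ ^ s) hr zero_le_one (by positivity) (by
      intro l r' hl hr'
      have h3 := hgp l r' (by omega) hr'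
      have h4 : l.length - 1 = s := by omega
      rw [h4] at h3
      rw [one_mul]
      exact h3)
    rw [one_mul] at g
    refine le_trans g (le_of_eq ?_)
    rw [mul_pow (θ * R) δ s, pow_succ]
    ring
  rw [Finset.sum_range_succ']
  have e0 : SW E θ 0 i r = E i r := rfl
  rw [e0]
  have h5 : ∑ s ∈ Finset.range r, SW E θ (s + 1) i r ≤ 2 * (θ * R) * B := by
    calc _ ≤ ∑ s ∈ Finset.range r, (θ * R) * B * (θ * R * δ) ^ s :=
          Finset.sum_le_sum fun s _ => key s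
      _ = (θ * R) * B * ∑ s ∈ Finset.range r, (θ * R * δ) ^ s := by rw [Finset.mul_sum]
      _ ≤ (θ * R) * B * 2 := mul_le_mul_of_nonneg_left (geo_le hε0 hε _) (by positivity)
      _ = 2 * (θ * R) * B := by ring
  linarith

end sums

end Pool.Agent.Lib.MP_688fd0_co.TF.H17
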