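import Pool.Agent.Lib.MP_688fd0_co.TF.Iface3

/-!
# Theorem F, kernel identities for the instances
-/

namespace Pool.Agent.Lib.MP_688fd0_co.TF.H17

open Pool.Agent.Lib.MP_688fd0_co.TE

universe u v

variable {G : Type u} [Group G] [Fintype G] [DecidableEq G] {c : Ctx G} {τ : Bool} {d : ℕ}
  {Val : Type v} [Fintype Val] {a : ℕ} {M : LM G Val a} {jm : ℕ}

theorem inst_jm (h : c.Inst τ d M jm) : jm + 1 ≤ a := by
  obtain ⟨m, hm⟩ := c.hodd
  have h1 := h.len
  have h2 := h.mid
  have h3 := h.d1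
  rcases h3 with rfl | rfl <;> omega

/-- `jm + 1 < a`. -/
theorem inst_jm' (h : c.Inst τ d M jm) (hk : 2 ≤ c.k) : jm + 1 < a := by
  have h1 := h.len
  have h2 := h.mid
  have h3 := h.d1
  rcases h3 with rfl | rfl <;> omega

theorem inst_ka (h : c.Inst τ d M jm) (x u : G) : M.ka jm x u = c.K τ 0 (d * jm + 1) x u := by
  unfold LM.ka
  rw [h.fk 0 jm x u (by have := inst_jm h; omega), Nat.mul_zero]

theorem inst_kb (hK : KERF_S.{u}) (h : c.Inst τ d M jm) (x v : G) :
    M.kb jm x v = c.K τ 0 (3 * c.k + 3) x v := by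
  obtain ⟨-, hadd, -⟩ := hK G c τ
  have e1 : 3 * c.k + 3 = (d * jm + 1) + (d - 1) := by
    have h2 := h.mid
    have h3 := h.d1
    rcases h3 with rfl | rfl <;> omega
  rw [e1, hadd 0 (d * jm + 1) (d - 1), Matrix.mul_apply]
  unfold LM.kb
  refine Finset.sum_congr rfl fun u _ => ?_
  rw [Nat.zero_add, ← h.kap jm u v, ← inst_ka h x u, LM.ka, Finset.mul_sum]
  refine Finset.sum_congr rfl fun e _ => ?_
  ring

theorem inst_kc (h : c.Inst τ d M jm) (v y : G) :
    M.kc jm v y = c.K τ (3 * c.k + 3) (3 * c.k) v y := by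
  have h1 := h.len
  have h2 := h.mid
  have h3 := h.d1
  have h4 := inst_jm h
  unfold LM.kc
  rw [h.fk (jm + 1) (a - 1 - jm) v y (by omega), h2]
  congr 1
  rcases h3 with rfl | rfl <;> omega

/-- The operator of one slot. -/
theorem inst_slot (hK : KERF_S.{u}) (h : c.Inst τ d M jm) (j : ℕ) (v : G) (F : G → ℝ) :
    ∑ u, ∑ e, M.C j v u * M.kap j u e * F (M.ex u e) = ∑ w, c.K τ (d * j) d v w * F w := by
  obtain ⟨-, hadd, -, -, -, -, -, -, -, -, -, hone⟩ := hK G c τ
  have e1 : d = 1 + (d - 1) := by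
    have h3 := h.d1
    rcases h3 with rfl | rfl <;> omega
  have e2 : c.K τ (d * j) d = c.K τ (d * j) 1 * c.K τ (d * j + 1) (d - 1) := by
    have h4 := hadd (d * j) 1 (d - 1)
    rwa [← e1] at h4
  have e3 : ∀ w, c.K τ (d * j) d v w = ∑ u, M.C j v u *
      ∑ e, M.kap j u e * ind (M.ex u e = w) := by
    intro w
    rw [e2, Matrix.mul_apply]
    refine Finset.sum_congr rfl fun u _ => ?_
    rw [hone, h.C, h.kap]
  have e4 : ∀ u e, M.C j v u * M.kap j u e * F (M.ex u e) =
      ∑ w, M.C j v u * (M.kap j u e * ind (M.ex u e = w)) * F w := by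
    intro u e
    rw [Finset.sum_eq_single (M.ex u e)]
    · rw [ind_of rfl]; ring
    · intro w _ hw
      rw [ind_not (Ne.symm hw)]; ring
    · intro h'; exact absurd (Finset.mem_univ _) h'
  simp only [e3, e4, Finset.sum_mul, Finset.mul_sum]
  have e5 : ∀ u : G, ∑ e : Val, ∑ w : G, M.C j v u * (M.kap j u e * ind (M.ex u e = w)) * F w =
      ∑ w : G, ∑ e : Val, M.C j v u * (M.kap j u e * ind (M.ex u e = w)) * F w :=
    fun u => Finset.sum_comm
  rw [Finset.sum_congr rfl fun u _ => e5 u]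
  exact Finset.sum_comm

/-- Sum over the entries of one slot with fixed exit vertex. -/
theorem inst_kx (hK : KERF_S.{u}) (h : c.Inst τ d M jm) (j : ℕ) (v : G) :
    ∑ u, ∑ e, M.kap j u e * ind (M.ex u e = v) = 1 := by
  obtain ⟨hDS, -⟩ := hK G c τ
  have := (hDS (d * j + 1) (d - 1)).1
  simp only [h.kap]
  exact this.col v

/-- Reversal of a window which starts or ends at a multiple of three. -/
theorem K_symm (hK : KERF_S.{u}) {i i' n : ℕ} (hi : (i + i' + n) % 3 = 0) (x y : G) :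
    c.K τ i n x y = c.K τ i' n y x := by
  obtain ⟨-, -, -, htr, -⟩ := hK G c τ
  rw [← htr i i' n hi, Matrix.transpose_apply]

theorem K_period (hK : KERF_S.{u}) (i n m : ℕ) : c.K τ (i + 3 * m) n = c.K τ i n := by
  obtain ⟨-, -, hper, -⟩ := hK G c τ
  induction m with
  | zero => rfl
  | succ m ih => rw [← ih, ← hper (i + 3 * m) n]; congr 1

theorem K_mul (hK : KERF_S.{u}) (i m n : ℕ) (x y : G) :
    ∑ w, c.K τ i m x w * c.K τ (i + m) n w y = c.K τ i (m + n) x y := by
  obtain ⟨-, hadd, -⟩ := hK G c τ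
  rw [hadd, Matrix.mul_apply]

end Pool.Agent.Lib.MP_688fd0_co.TF.H17
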