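import Pool.Agent.Lib.MP_688fd0_co.TF.H17.Win

/-!
# Theorem F, tails of the loads from the window bounds
-/

set_option linter.unusedSectionVars false

namespace Pool.Agent.Lib.MP_688fd0_co.TF.H17

open Pool.Agent.Lib.MP_688fd0_co.TE
open Pool.Agent.Lib.MP_688fd0_co.TE.H92 (PM SW gp)

universe u v

/-- The first window of a chain is sparse only if the window of length zero is. -/
theorem first_zero {τ : Bool} {pos ent : ℕ → ℕ} {i0 e0 : ℕ} (h : Chn τ pos ent i0 e0)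
    (l : List ℕ) (i r : ℕ) (hi : i0 ≤ i) (he : i + (l.sum + l.length + r) ≤ e0)
    (hf : ¬ spw τ (wd pos ent i 0)) : ¬ ∃ p ∈ (wl pos ent i l r).head?, spw τ p := by
  rintro ⟨p, hp, hsp⟩
  cases l with
  | nil =>
    simp only [wl, List.head?_cons, Option.mem_def, Option.some.injEq] at hp
    subst hp
    simp only [List.sum_nil, List.length_nil] at he
    have h3 := h.s1 i r hi (by omega) hsp
    subst h3
    exact hf hsp
  | cons t l =>
    simp only [wl, List.head?_cons, Option.mem_def, Option.some.injEq] at hp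
    subst hp
    simp only [List.sum_cons, List.length_cons] at he
    have h3 := h.s1 i t hi (by omega) hsp
    subst h3
    exact hf hsp

theorem count_one {τ : Bool} {pos ent : ℕ → ℕ} {i0 e0 : ℕ} (h : Chn τ pos ent i0 e0)
    (l : List ℕ) (i r R : ℕ) (hi : i0 ≤ i) (hR : l.sum + l.length + r = R) (he : i + R ≤ e0)
    (hf : ¬ spw τ (wd pos ent i 0) ∨ ¬ spw τ (wd pos ent (i + R) 0)) :
    2 * sc' τ (wl pos ent i l r) ≤ l.length + 1 := by
  classical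
  have h1 := wl_count h l i r hi (by omega)
  rw [hR] at h1
  rcases hf with hf | hf
  · have h2 := first_zero h l i r hi (by omega) hf
    rw [if_neg h2] at h1
    split_ifs at h1 <;> omega
  · rw [if_neg hf] at h1
    split_ifs at h1 <;> omega

theorem count_zero {τ : Bool} {pos ent : ℕ → ℕ} {i0 e0 : ℕ} (h : Chn τ pos ent i0 e0)
    (l : List ℕ) (i r R : ℕ) (hi : i0 ≤ i) (hR : l.sum + l.length + r = R) (he : i + R ≤ e0)
    (hf : ¬ spw τ (wd pos ent i 0) ∧ ¬ spw τ (wd pos ent (i + R) 0)) :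
    2 * sc' τ (wl pos ent i l r) ≤ l.length := by
  classical
  have h1 := wl_count h l i r hi (by omega)
  rw [hR] at h1
  have h2 := first_zero h l i r hi (by omega) hf.1
  rw [if_neg h2, if_neg hf.2] at h1
  omega

variable {G : Type u} [Group G] [Fintype G] [DecidableEq G] {c : Ctx G} {τ : Bool} {d : ℕ}
  {Val : Type v} [Fintype Val] {a : ℕ} {M : LM G Val a} {jm : ℕ}

theorem b8_ge (hN : NUMF_S.{u}) (c : Ctx G) : c.X ^ 25000 ≤ c.b ^ (1 / 8 : ℝ) := by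
  obtain ⟨hX, -, -, -, -, hq, hb, hXb, -⟩ := hN G c
  have hX0 : 0 ≤ c.X := le_trans (by norm_num) hX
  have h1 : (c.X ^ 200000) ^ (1 / 8 : ℝ) ≤ c.b ^ (1 / 8 : ℝ) :=
    Real.rpow_le_rpow (pow_nonneg hX0 _) hXb (by norm_num)
  refine le_trans (le_of_eq ?_) h1
  rw [← Real.rpow_natCast, ← Real.rpow_natCast, ← Real.rpow_mul hX0]
  norm_num

theorem b1_eq (hN : NUMF_S.{u}) (c : Ctx G) : (1 / c.b ^ (1 / 8 : ℝ)) ^ 2 = 1 / c.b1 := by
  obtain ⟨-, -, -, -, -, -, hb, -⟩ := hN G c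
  rw [div_pow, one_pow, ← Real.rpow_natCast, ← Real.rpow_mul hb.le, Ctx.b1]
  norm_num

/-- `a ≤ X`, `k ≤ X` and more. -/
theorem num_aX (hN : NUMF_S.{u}) (h : c.Inst τ d M jm) :
    (100 : ℝ) ≤ c.k ∧ (c.k : ℝ) * 10 ^ 6 ≤ c.X ∧ (a : ℝ) ≤ 8 * c.k ∧
      (8 * (c.k : ℝ)) * (8 * c.k) * 100 ≤ c.X := by
  obtain ⟨hX, hkX, -, hk, -⟩ := hN G c
  have hk' : (100 : ℝ) ≤ c.k := by exact_mod_cast hk
  have h1 : (1 : ℝ) ≤ 10 ^ 6 * c.k := by nlinarith
  have h2 : (10 ^ 6 * c.k : ℝ) ^ 2 ≤ (10 ^ 6 * c.k : ℝ) ^ 200 :=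
    pow_le_pow_right₀ h1 (by norm_num)
  have h3 : (10 ^ 6 * c.k : ℝ) ^ 2 ≤ c.X := le_trans h2 hkX
  have ha : a ≤ 8 * c.k := by
    have h4 := h.len
    rcases h.d1 with rfl | rfl <;> omega
  refine ⟨hk', ?_, by exact_mod_cast ha, ?_⟩
  · nlinarith
  · nlinarith

theorem eps_le (hN : NUMF_S.{u}) (h : c.Inst τ d M jm) :
    (c.k : ℝ) * M.H0 * (a : ℕ) * (1 / c.b ^ (1 / 8 : ℝ)) ≤ 1 / 2 := by
  obtain ⟨hX, -, -, -, -, hq, hb, hXb, -⟩ := hN G c
  obtain ⟨hk, hkX, ha, hkk⟩ := num_aX hN h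
  have hX1 : 1 ≤ c.X := le_trans (by norm_num) hX
  have hX0 : 0 ≤ c.X := by linarith
  have hH := h.H0
  have hH1 := M.hH0
  have hb8 := b8_ge hN c
  have ha0 : (0 : ℝ) ≤ a := Nat.cast_nonneg a
  have h1 : (c.k : ℝ) * M.H0 * a ≤ c.X * (2 * c.X ^ 3000) := by
    calc (c.k : ℝ) * M.H0 * a = (c.k * a) * M.H0 := by ring
      _ ≤ c.X * (2 * c.X ^ 3000) := by
        refine mul_le_mul ?_ hH (by linarith) hX0
        nlinarith
  have hpos : 0 < c.b ^ (1 / 8 : ℝ) := Real.rpow_pos_of_pos hb _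
  rw [mul_one_div, div_le_iff₀ hpos]
  have h2 : c.X * (2 * c.X ^ 3000) ≤ 1 / 2 * c.X ^ 25000 := by
    have h3 : c.X ^ 25000 = c.X ^ 3001 * c.X ^ 21999 := by rw [← pow_add]
    have h4 : (4 : ℝ) ≤ c.X ^ 21999 := by
      calc (4 : ℝ) ≤ c.X := by linarith
        _ = c.X ^ 1 := (pow_one _).symm
        _ ≤ c.X ^ 21999 := pow_le_pow_right₀ hX1 (by norm_num)
    have h5 : c.X * (2 * c.X ^ 3000) = 2 * c.X ^ 3001 := by ring
    rw [h3, h5]
    have h6 : 0 ≤ c.X ^ 3001 := pow_nonneg hX0 _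
    nlinarith
  linarith

/-- Path sums with weights from the window bounds. -/
theorem gs_le' (hQ : QQF_S.{u}) (A : PM G Val) (okA : A.Ok M.H0) {pos ent : ℕ → ℕ} {e0 : ℕ}
    (w : ∀ i r x y, i + r ≤ e0 → A.fk i r x y ≤ EE c τ pos ent i r) (i r : ℕ) (hr : i + r ≤ e0)
    (x y : G) (g : ℕ → G × Val → ℝ) (hg : ∀ j s, 0 ≤ g j s)
    (hgN : ∀ j, ∑ s, g j s ≤ (c.k : ℝ)) :
    A.gs g i r x y ≤ ∑ s ∈ Finset.range (r + 1), SW (EE c τ pos ent) (c.k * M.H0) s i r := by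
  have h1 := H92.PM.gs_le okA hg (Nat.cast_nonneg c.k) hgN (EE_nonneg hQ c τ pos ent) w r i hr x y
  rw [Finset.sum_range_succ']
  have h2 := w i r x y hr
  have h3 : SW (EE c τ pos ent) (c.k * M.H0) 0 i r = EE c τ pos ent i r := rfl
  rw [h3]
  linarith

theorem two_load (hM : MRG_S.{u}) (hN : NUMF_S.{u}) (hQ : QQF_S.{u}) (h : c.Inst τ d M jm)
    (A B : PM G Val) (hAP : A.P = M.P) (hBP : B.P = M.P) (okA : A.Ok M.H0) (okB : B.Ok M.H0)
    {pos1 ent1 pos2 ent2 : ℕ → ℕ} {iA rA iB rB e1 e2 : ℕ} (ch1 : Chn τ pos1 ent1 iA e1)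
    (ch2 : Chn τ pos2 ent2 iB e2)
    (w1 : ∀ i r x y, i + r ≤ e1 → A.fk i r x y ≤ EE c τ pos1 ent1 i r)
    (w2 : ∀ i r x y, i + r ≤ e2 → B.fk i r x y ≤ EE c τ pos2 ent2 i r)
    (he1 : iA + rA ≤ e1) (he2 : iB + rB ≤ e2) (ha : e1 ≤ a) (hb : e2 ≤ a)
    (hdis : iA + rA ≤ iB ∨ iB + rB ≤ iA)
    (f1 : ¬ spw τ (wd pos1 ent1 iA 0) ∨ ¬ spw τ (wd pos1 ent1 (iA + rA) 0))
    (f2 : ¬ spw τ (wd pos2 ent2 iB 0) ∨ ¬ spw τ (wd pos2 ent2 (iB + rB) 0))
    (hsum : 6 * c.k + pos1 iA + pos2 iB ≤ ent1 (iA + rA) + ent2 (iB + rB) + 40)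
    (xA yA xB yB : G) :
    Pr M.law (fun ω => 10 * c.q τ / c.b1 < sumL rA (fun l => A.pw iA xA l yA * M.xw ω iA l) *
      sumL rB (fun l => B.pw iB xB l yB * M.xw ω iB l)) ≤ (4 / 5) ^ c.k := by
  have hN' := hN G c
  obtain ⟨hX, -, -, -, -, hq, hb0, hXb, -, hb1, -⟩ := hN'
  have hq' := hq τ
  set δ : ℝ := 1 / c.b ^ (1 / 8 : ℝ) with hδ
  have hδ0 : 0 ≤ δ := one_div_nonneg.2 (Real.rpow_nonneg hb0.le _)
  have hθ : 0 ≤ (c.k : ℝ) * M.H0 := mul_nonneg (Nat.cast_nonneg _) (by linarith [M.hH0])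
  have key : ∀ g : ℕ → G × Val → ℝ, (∀ j s, 0 ≤ g j s) → (∀ j, ∑ s, g j s ≤ (c.k : ℝ)) →
      A.gs g iA rA xA yA * B.gs g iB rB xB yB ≤ 8 * c.q τ / c.b1 := by
    intro g hg hgN
    have g1 := gs_le' (c := c) (τ := τ) (M := M) hQ A okA w1 iA rA he1 xA yA g hg hgN
    have g2 := gs_le' (c := c) (τ := τ) (M := M) hQ B okB w2 iB rB he2 xB yB g hg hgN
    have g3 := two_sum (EE_nonneg hQ c τ pos1 ent1) (EE_nonneg hQ c τ pos2 ent2) hθ hδ0
      (B := 2 * c.q τ * δ ^ 2) (by positivity) a iA rA iB rB (by omega) (by omega) (by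
        intro l1 r1' l2 r2' hl1 hl2
        rw [gp_EE, gp_EE, ← List.prod_append, ← List.map_append]
        have c1 := count_one ch1 l1 iA r1' rA le_rfl hl1 he1 f1
        have c2 := count_one ch2 l2 iB r2' rB le_rfl hl2 he2 f2
        have s1 := wl_sum ch1 l1 iA r1' le_rfl (by omega)
        have s2 := wl_sum ch2 l2 iB r2' le_rfl (by omega)
        rw [hl1] at s1
        rw [hl2] at s2
        have hmg := mrg_le hM hN c τ (wl pos1 ent1 iA l1 r1' ++ wl pos2 ent2 iB l2 r2')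
          (l1.length + l2.length + 1) (l1.length + l2.length + 2)
          (by rw [List.length_append, wl_length, wl_length]; ring)
          (by omega) (by rw [sc_append]; omega)
          (by rw [List.map_append, List.sum_append]; omega) (by rw [sc_append]; omega)
        refine le_trans hmg (le_of_eq ?_)
        rw [pow_add]
        ring) (eps_le hN h)
    have hA0 : 0 ≤ A.gs g iA rA xA yA := H92.PM.gs_nonneg okA hg _ _ _ _
    have hB0 : 0 ≤ B.gs g iB rB xB yB := H92.PM.gs_nonneg okB hg _ _ _ _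
    refine le_trans (mul_le_mul g1 g2 hB0 (le_trans hA0 g1)) (le_trans g3 (le_of_eq ?_))
    rw [hδ, b1_eq hN c]
    ring
  have ht := two_tail M A B hAP hBP okA okB iA rA iB rB hdis (by omega) (by omega) xA yA xB yB c.k
    (8 * c.q τ / c.b1) (10 * c.q τ / c.b1) (by positivity) (by positivity) key
  refine le_trans ht (le_of_eq ?_)
  congr 1
  field_simp
  norm_num

theorem one_load (hM : MRG_S.{u}) (hN : NUMF_S.{u}) (hQ : QQF_S.{u}) (h : c.Inst τ d M jm)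
    (A : PM G Val) (hAP : A.P = M.P) (okA : A.Ok M.H0)
    {pos1 ent1 : ℕ → ℕ} {iA rA e1 : ℕ} (ch1 : Chn τ pos1 ent1 iA e1)
    (w1 : ∀ i r x y, i + r ≤ e1 → A.fk i r x y ≤ EE c τ pos1 ent1 i r)
    (he1 : iA + rA ≤ e1) (ha : e1 ≤ a) (h0 : EE c τ pos1 ent1 iA rA ≤ 2 * c.q τ)
    (f1 : ¬ spw τ (wd pos1 ent1 iA 0) ∧ ¬ spw τ (wd pos1 ent1 (iA + rA) 0))
    (hsum : 6 * c.k + pos1 iA ≤ ent1 (iA + rA) + 40)
    (xA yA : G) :
    Pr M.law (fun ω => 10 * c.q τ < sumL rA (fun l => A.pw iA xA l yA * M.xw ω iA l)) ≤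
      (4 / 5) ^ c.k := by
  have hN' := hN G c
  obtain ⟨hX, -, -, -, -, hq, hb0, hXb, -, hb1, -⟩ := hN'
  have hq' := hq τ
  set δ : ℝ := 1 / c.b ^ (1 / 8 : ℝ) with hδ
  have hδ0 : 0 ≤ δ := one_div_nonneg.2 (Real.rpow_nonneg hb0.le _)
  have hθ : 0 ≤ (c.k : ℝ) * M.H0 := mul_nonneg (Nat.cast_nonneg _) (by linarith [M.hH0])
  have key : ∀ g : ℕ → G × Val → ℝ, (∀ j s, 0 ≤ g j s) → (∀ j, ∑ s, g j s ≤ (c.k : ℝ)) →
      A.gs g iA rA xA yA * (pm1 M).gs g a 0 xA yA ≤ 4 * c.q τ := by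
    intro g hg hgN
    have g1 := gs_le' (c := c) (τ := τ) (M := M) hQ A okA w1 iA rA he1 xA yA g hg hgN
    have g3 := one_sum (EE_nonneg hQ c τ pos1 ent1) hθ hδ0
      (B := 2 * c.q τ) (by positivity) a iA rA (by omega) (by
        intro l1 r1' hl1
        rcases l1.eq_nil_or_concat with rfl | hne
        · simp only [List.sum_nil, List.length_nil, Nat.zero_add] at hl1
          subst hl1
          simpa [gp] using h0
        · have hlen : 1 ≤ l1.length := by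
            obtain ⟨l', b', rfl⟩ := hne
            simp
          rw [gp_EE]
          have c1 := count_zero ch1 l1 iA r1' rA le_rfl hl1 he1 f1
          have s1 := wl_sum ch1 l1 iA r1' le_rfl (by omega)
          rw [hl1] at s1
          exact mrg_le hM hN c τ (wl pos1 ent1 iA l1 r1') l1.length l1.length
            (wl_length _ _ _) hlen (by omega) (by omega) (by omega)) (eps_le hN h)
    have e1 : (pm1 M).gs g a 0 xA yA = 1 := H92.PM.gs_zero _ _ _ _ _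
    rw [e1, mul_one]
    refine le_trans g1 (le_trans g3 (le_of_eq ?_))
    ring
  have ht := two_tail M A (pm1 M) hAP rfl okA (ok_1 M) iA rA a 0 (Or.inl (by omega)) (by omega)
    (by omega) xA yA xA yA c.k (4 * c.q τ) (10 * c.q τ) (by positivity) (by positivity) key
  have e2 : ∀ ω : Fld a G Val, sumL 0 (fun l => (pm1 M).pw a xA l yA * M.xw ω a l) = 1 := by
    intro ω
    change (1 : ℝ) * 1 = 1
    ring
  simp only [e2, mul_one] at ht
  refine le_trans ht ?_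
  refine pow_le_pow_left₀ (by positivity) ?_ _
  rw [div_le_div_iff₀ (by positivity) (by norm_num)]
  linarith

theorem one_load' (hM : MRG_S.{u}) (hN : NUMF_S.{u}) (hQ : QQF_S.{u}) (h : c.Inst τ d M jm)
    (A : PM G Val) (hAP : A.P = M.P) (okA : A.Ok M.H0)
    {pos1 ent1 : ℕ → ℕ} {iA rA e1 : ℕ} (ch1 : Chn τ pos1 ent1 iA e1)
    (w1 : ∀ i r x y, i + r ≤ e1 → A.fk i r x y ≤ EE c τ pos1 ent1 i r)
    (he1 : iA + rA ≤ e1) (ha : e1 ≤ a) (h0 : EE c τ pos1 ent1 iA rA ≤ 2 * c.q τ)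
    (f1 : ¬ spw τ (wd pos1 ent1 iA 0) ∨ ¬ spw τ (wd pos1 ent1 (iA + rA) 0))
    (hsum : 6 * c.k + pos1 iA ≤ ent1 (iA + rA) + 40)
    (xA yA : G) :
    Pr M.law (fun ω => c.X * M.H0 * c.q τ <
      sumL rA (fun l => A.pw iA xA l yA * M.xw ω iA l)) ≤ (4 / 5) ^ c.k := by
  have hN' := hN G c
  obtain ⟨hX, -, -, -, -, hq, hb0, hXb, -, hb1, -⟩ := hN'
  have hq' := hq τ
  have hH1 := M.hH0
  obtain ⟨hk, hkX, haX, hkk⟩ := num_aX hN h
  have ha0 : (0 : ℝ) ≤ a := Nat.cast_nonneg a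
  set δ : ℝ := 1 / c.b ^ (1 / 8 : ℝ) with hδ
  have hδ0 : 0 ≤ δ := one_div_nonneg.2 (Real.rpow_nonneg hb0.le _)
  have hθ : 0 ≤ (c.k : ℝ) * M.H0 := mul_nonneg (Nat.cast_nonneg _) (by linarith [M.hH0])
  have key : ∀ g : ℕ → G × Val → ℝ, (∀ j s, 0 ≤ g j s) → (∀ j, ∑ s, g j s ≤ (c.k : ℝ)) →
      A.gs g iA rA xA yA * (pm1 M).gs g a 0 xA yA ≤
        2 * c.q τ + 2 * ((c.k : ℝ) * M.H0 * a) * (2 * c.q τ) := by
    intro g hg hgN
    have g1 := gs_le' (c := c) (τ := τ) (M := M) hQ A okA w1 iA rA he1 xA yA g hg hgN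
    have g3 := one_sum' (EE_nonneg hQ c τ pos1 ent1) hθ hδ0
      (B := 2 * c.q τ) (by positivity) a iA rA (by omega) h0 (by
        intro l1 r1' hlen hl1
        rw [gp_EE]
        have c1 := count_one ch1 l1 iA r1' rA le_rfl hl1 he1 f1
        have s1 := wl_sum ch1 l1 iA r1' le_rfl (by omega)
        rw [hl1] at s1
        exact mrg_le hM hN c τ (wl pos1 ent1 iA l1 r1') l1.length (l1.length - 1)
          (wl_length _ _ _) hlen (by omega) (by omega) (by omega)) (eps_le hN h)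
    have e1 : (pm1 M).gs g a 0 xA yA = 1 := H92.PM.gs_zero _ _ _ _ _
    rw [e1, mul_one]
    exact le_trans g1 g3
  have hX0 : 0 < c.X := by linarith
  have hs : 0 < c.X * M.H0 * c.q τ := by positivity
  have hL0 : 0 ≤ 2 * c.q τ + 2 * ((c.k : ℝ) * M.H0 * a) * (2 * c.q τ) := by positivity
  have ht := two_tail M A (pm1 M) hAP rfl okA (ok_1 M) iA rA a 0 (Or.inl (by omega)) (by omega)
    (by omega) xA yA xA yA c.k (2 * c.q τ + 2 * ((c.k : ℝ) * M.H0 * a) * (2 * c.q τ))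
    (c.X * M.H0 * c.q τ) hL0 hs key
  have e2 : ∀ ω : Fld a G Val, sumL 0 (fun l => (pm1 M).pw a xA l yA * M.xw ω a l) = 1 := by
    intro ω
    change (1 : ℝ) * 1 = 1
    ring
  simp only [e2, mul_one] at ht
  refine le_trans ht ?_
  refine pow_le_pow_left₀ (div_nonneg hL0 hs.le) ?_ _
  rw [div_le_iff₀ hs]
  have h6 : (2 + 4 * ((c.k : ℝ) * a)) ≤ 4 / 5 * c.X := by nlinarith
  have h7 : 2 * c.q τ + 2 * ((c.k : ℝ) * M.H0 * a) * (2 * c.q τ) ≤
      (2 + 4 * ((c.k : ℝ) * a)) * (M.H0 * c.q τ) := by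
    have : c.q τ ≤ M.H0 * c.q τ := by nlinarith
    nlinarith
  refine le_trans h7 ?_
  have h8 : 0 ≤ M.H0 * c.q τ := by positivity
  nlinarith

end Pool.Agent.Lib.MP_688fd0_co.TF.H17
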