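import Pool.Agent.Lib.MP_688fd0_co.TF.H17.Load

/-!
# Theorem F, module LSF: sup bounds of the loads
-/

set_option linter.unusedSectionVars false

namespace Pool.Agent.Lib.MP_688fd0_co.TF.H17

open Pool.Agent.Lib.MP_688fd0_co.TE
open Pool.Agent.Lib.MP_688fd0_co.TE.H92 (PM SW gp)

universe u v

section prob

variable {Ω : Type*} [Fintype Ω] {μ : Ω → ℝ}

theorem pr_mono (hμ : IsPr μ) {E F : Ω → Prop} (h : ∀ ω, E ω → F ω) : Pr μ E ≤ Pr μ F :=
  Finset.sum_le_sum fun ω _ => mul_le_mul_of_nonneg_left (ind_mono (h ω)) (hμ.nn ω)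

theorem pr_or (hμ : IsPr μ) (E F : Ω → Prop) : Pr μ (fun ω => E ω ∨ F ω) ≤ Pr μ E + Pr μ F := by
  unfold Pr
  rw [← Finset.sum_add_distrib]
  refine Finset.sum_le_sum fun ω _ => ?_
  rw [← mul_add]
  refine mul_le_mul_of_nonneg_left ?_ (hμ.nn ω)
  by_cases h1 : E ω
  · rw [ind_of (Or.inl h1), ind_of h1]
    have := ind_nonneg (F ω)
    linarith
  · by_cases h2 : F ω
    · rw [ind_of (Or.inr h2), ind_of h2]
      have := ind_nonneg (E ω)
      linarith
    · rw [ind_not (by tauto), ind_not h1, ind_not h2]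
      norm_num

theorem pr_ex (hμ : IsPr μ) {ι : Type*} [Fintype ι] (E : ι → Ω → Prop) (β : ℝ)
    (h : ∀ i, Pr μ (E i) ≤ β) : Pr μ (fun ω => ∃ i, E i ω) ≤ Fintype.card ι * β := by
  have h1 : Pr μ (fun ω => ∃ i, E i ω) ≤ ∑ i, Pr μ (E i) := by
    unfold Pr
    rw [Finset.sum_comm]
    refine Finset.sum_le_sum fun ω _ => ?_
    rw [← Finset.mul_sum]
    refine mul_le_mul_of_nonneg_left ?_ (hμ.nn ω)
    by_cases h2 : ∃ i, E i ω
    · obtain ⟨i, hi⟩ := h2
      rw [ind_of ⟨i, hi⟩]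
      refine le_trans (le_of_eq (ind_of hi).symm) ?_
      exact Finset.single_le_sum (f := fun i => ind (E i ω)) (fun i _ => ind_nonneg _)
        (Finset.mem_univ i)
    · rw [ind_not h2]
      exact Finset.sum_nonneg fun i _ => ind_nonneg _
  refine le_trans h1 ?_
  calc ∑ i, Pr μ (E i) ≤ ∑ _i : ι, β := Finset.sum_le_sum fun i _ => h i
    _ = _ := by rw [Finset.sum_const, nsmul_eq_mul]; rfl

theorem pr_false (E : Ω → Prop) (h : ∀ ω, ¬ E ω) : Pr μ E = 0 := by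
  unfold Pr
  refine Finset.sum_eq_zero fun ω _ => ?_
  rw [ind_not (h ω), mul_zero]

end prob

section loads

variable {G : Type u} [Group G] [Fintype G] [DecidableEq G] {c : Ctx G} {τ : Bool} {d : ℕ}
  {Val : Type v} [Fintype Val] {a : ℕ} {M : LM G Val a} {jm : ℕ}

theorem kap0 (hK : KERF_S.{u}) (hQ : QQF_S.{u}) (hk : 4 ≤ c.k) (h : c.Inst τ d M jm) (y : G) :
    0 < c.gs τ 3 (3 * c.k) ∧ (∀ v, 0 ≤ M.kc jm v y) ∧ (∀ v, M.kc jm v y ≤ c.gs τ 3 (3 * c.k)) := by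
  refine ⟨?_, ?_, ?_⟩
  · obtain ⟨-, hq, -⟩ := hQ G c τ
    unfold Ctx.gs
    rw [if_pos (by omega)]
    exact hq _
  · intro v
    rw [inst_kc h]
    exact K_nonneg hK _ _ _ _
  · intro v
    rw [inst_kc h, K_symm hK (i := 3 * c.k + 3) (i' := 3) (n := 3 * c.k) (by omega)]
    exact K_le_gs hK _ _ _ _

theorem kb_nonneg (hK : KERF_S.{u}) (h : c.Inst τ d M jm) (x v : G) : 0 ≤ M.kb jm x v := by
  rw [inst_kb hK h]
  exact K_nonneg hK _ _ _ _

theorem nspw_start : ¬ spw τ (wd (posA d) (entA d) 0 0) := by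
  intro h
  have e1 : wd (posA d) (entA d) 0 0 = (d * 0, 1) := by
    simp [wd, posA, entA]
  rw [e1] at h
  have := spw_A h
  simp at this

theorem nspw_B (h : c.Inst τ d M jm) : ¬ spw τ (wd (posA d) (entB d jm c.k) (jm + 1) 0) := by
  refine not_spw_of ?_
  simp only [wd, posA, entB, Nat.add_zero, if_true, h.mid]
  omega

theorem nspw_a (h : c.Inst τ d M jm) : ¬ spw τ (wd (posA d) (entA d) a 0) := by
  intro h'
  have e1 : wd (posA d) (entA d) a 0 = (d * a, 1) := by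
    simp only [wd, posA, entA, Nat.add_zero]
    congr 1
    omega
  rw [e1] at h'
  have h1 := spw_A h'
  rw [h.len] at h1
  omega

theorem nspw_C (hk : 4 ≤ c.k) : ¬ spw τ (wd (posC d jm) (entC d jm c.k) jm 0) := by
  refine not_spw_of ?_
  simp only [wd, posC, entC, Nat.add_zero, if_true]
  omega

theorem x0 (hM : MRG_S.{u}) (hN : NUMF_S.{u}) (hQ : QQF_S.{u}) (hK : KERF_S.{u})
    (h : c.Inst τ d M jm) (j j' : ℕ) (x u w : G) (h1 : j ≤ j') (h2 : j' ≤ j + 1) (h3 : j' ≤ jm) :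
    Pr M.law (fun ω => 10 * c.q τ / c.b1 < M.lx jm ω x j j' u w) ≤ (4 / 5) ^ c.k := by
  have hj := inst_jm h
  have e1 : j' + 1 + (jm - j') = jm + 1 := by omega
  have key := two_load hM hN hQ h (pmA M) (pmE M (M.kb jm x) (jm + 1)) rfl rfl (ok_A M)
    (ok_E M _ (kb_nonneg hK h x) _) (iA := 0) (rA := j) (iB := j' + 1) (rB := jm - j')
    (chnA τ h.d1 0 a) (chnB τ h.d1 h.mid (j' + 1)) (winA hK h) (winB hK h x) (by omega)
    (by omega) le_rfl hj (Or.inl (by omega)) (Or.inl nspw_start)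
    (Or.inr (by rw [e1]; exact nspw_B h)) (by
      rw [e1]
      simp only [posA, entA, entB, if_true, Nat.zero_add]
      have hd := h.d1
      rcases hd with rfl | rfl <;> omega) x u w w
  refine le_trans (le_of_eq ?_) key
  congr 1
  funext ω
  rw [LM.lx, Fn_sum, Gn_sum M ω (M.kb jm x) (jm - j') (j' + 1) w w, e1]

theorem y0 (hM : MRG_S.{u}) (hN : NUMF_S.{u}) (hQ : QQF_S.{u}) (hK : KERF_S.{u})
    (h : c.Inst τ d M jm) (j j' : ℕ) (y u w : G) (h1 : jm < j) (h2 : j ≤ j') (h3 : j' ≤ j + 1)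
    (h4 : j' < a) :
    Pr M.law (fun ω => 10 * c.q τ / c.b1 < M.ly jm ω y j j' u w) ≤ (4 / 5) ^ c.k := by
  have hj := inst_jm h
  obtain ⟨-, -, -, hk, -⟩ := hN G c
  have hk4 : 4 ≤ c.k := by omega
  obtain ⟨k0, k1, k2⟩ := kap0 hK hQ hk4 h y
  have e1 : j' + 1 + (a - 1 - j') = a := by omega
  obtain ⟨n, rfl⟩ : ∃ n, j = jm + 1 + n := ⟨j - jm - 1, by omega⟩
  have key := two_load hM hN hQ h (pmC M jm y (c.gs τ 3 (3 * c.k)))
    (pmE M (fun v => M.C a v y) a) rfl rfl (ok_C M jm y _ k0 k1 k2)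
    (ok_E M _ (fun v => M.hC0 _ _ _) _) (iA := jm) (rA := n + 1) (iB := j' + 1)
    (rB := a - 1 - j') (chnC τ h.d1 h.mid (by omega) a) (chnA τ h.d1 (j' + 1) a)
    (winC hK hQ hk4 h y) (winE hK h y) (by omega) (by omega) le_rfl le_rfl (Or.inl (by omega))
    (Or.inl (nspw_C hk4)) (Or.inr (by rw [e1]; exact nspw_a h)) (by
      rw [e1]
      have e5 : jm + (n + 1) = jm + 1 + n := by ring
      simp only [posA, entA, posC, entC, if_true, e5]
      rw [if_neg (by omega), h.len]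
      have hd := h.d1
      rcases hd with rfl | rfl <;> omega) y u w w
  refine le_trans (le_of_eq ?_) key
  congr 1
  funext ω
  rw [LM.ly, FYm_sum M ω jm y _ k0.ne' n y u,
    Gn_sum M ω (fun v => M.C a v y) (a - 1 - j') (j' + 1) w w, e1]

theorem z0 (hM : MRG_S.{u}) (hN : NUMF_S.{u}) (hQ : QQF_S.{u}) (hK : KERF_S.{u})
    (h : c.Inst τ d M jm) (y v w : G) :
    Pr M.law (fun ω => 10 * c.q τ / c.b1 < M.lz jm ω y v w) ≤ (4 / 5) ^ c.k := by
  obtain ⟨-, -, -, hk, -⟩ := hN G c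
  have hk4 : 4 ≤ c.k := by omega
  have hj := inst_jm' h (by omega)
  obtain ⟨k0, k1, k2⟩ := kap0 hK hQ hk4 h y
  have e1 : jm + 2 + (a - 2 - jm) = a := by omega
  have key := two_load hM hN hQ h (pmC M jm y (c.gs τ 3 (3 * c.k)))
    (pmE M (fun v => M.C a v y) a) rfl rfl (ok_C M jm y _ k0 k1 k2)
    (ok_E M _ (fun v => M.hC0 _ _ _) _) (iA := jm) (rA := 0) (iB := jm + 2)
    (rB := a - 2 - jm) (chnC τ h.d1 h.mid (by omega) a) (chnA τ h.d1 (jm + 2) a)
    (winC hK hQ hk4 h y) (winE hK h y) (by omega) (by omega) le_rfl le_rfl (Or.inl (by omega))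
    (Or.inl (nspw_C hk4)) (Or.inr (by rw [e1]; exact nspw_a h)) (by
      rw [e1]
      simp only [posA, entA, posC, entC, if_true, Nat.add_zero]
      have hm := h.mid
      have e5 : d * (jm + 2) = 3 * c.k + 3 + d := by rw [← hm]; ring
      rw [e5, h.len]
      have hd := h.d1
      rcases hd with rfl | rfl <;> omega) y y w w
  refine le_trans (pr_mono (law_pr M) ?_) key
  intro ω hω
  refine lt_of_lt_of_le hω ?_
  rw [LM.lz, Gn_sum M ω (fun v => M.C a v y) (a - 2 - jm) (jm + 2) w w, e1]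
  refine mul_le_mul_of_nonneg_right ?_ ?_
  · have e2 : sumL 0 (fun l => (pmC M jm y (c.gs τ 3 (3 * c.k))).pw jm y l y * M.xw ω jm l) =
        c.gs τ 3 (3 * c.k) := by
      change (if jm < jm then (0 : ℝ) else if jm = jm then c.gs τ 3 (3 * c.k) else M.C jm y y) * 1 =
        c.gs τ 3 (3 * c.k)
      rw [if_neg (lt_irrefl _), if_pos rfl, mul_one]
    rw [e2]
    exact k2 v
  · refine H67.sumL_nonneg _ _ fun l _ => mul_nonneg ?_ ?_
    · exact H92.PM.pw_nonneg (ok_E M _ (fun v => M.hC0 _ _ _) _) l _ _ _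
    · exact H19.xw_nonneg M ω l _

theorem gs_x2 (hN : NUMF_S.{u}) (h : c.Inst τ d M jm) :
    EE c τ (posA d) (entB d jm c.k) 1 jm ≤ 2 * c.q τ := by
  obtain ⟨-, -, -, hk, -, hq, -⟩ := hN G c
  have e1 : wd (posA d) (entB d jm c.k) 1 jm = (d, 6 * c.k + 6 - d) := by
    simp only [wd, posA, entB]
    rw [if_pos (by omega), Nat.mul_one]
  rw [EE, e1]
  unfold Ctx.gs
  have hd := h.d1
  rw [if_pos (by rcases hd with rfl | rfl <;> simp only [] <;> omega)]
  have e2 : (6 * c.k + 6 - d - 4) / 6 = c.k := by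
    rcases hd with rfl | rfl <;> omega
  simp only [e2]
  have := hq τ
  change c.q τ ≤ 2 * c.q τ
  linarith

theorem gs_y2 (hN : NUMF_S.{u}) (hQ : QQF_S.{u}) (h : c.Inst τ d M jm) :
    EE c τ (posC d jm) (entC d jm c.k) jm (a - 1 - jm) ≤ 2 * c.q τ := by
  obtain ⟨-, -, -, hk, -, hq, -⟩ := hN G c
  have hj := inst_jm' h (by omega)
  have hd := h.d1
  have hlen := h.len
  have e1 : wd (posC d jm) (entC d jm c.k) jm (a - 1 - jm) = (3, 6 * c.k - d) := by
    simp only [wd, posC, entC, if_true]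
    rw [if_neg (by omega)]
    congr 1
    have e5 : jm + (a - 1 - jm) = a - 1 := by omega
    rw [e5]
    rcases hd with rfl | rfl <;> omega
  rw [EE, e1]
  unfold Ctx.gs
  rw [if_pos (by rcases hd with rfl | rfl <;> simp only [] <;> omega)]
  have e2 : (6 * c.k - d - 4) / 6 = c.k - 1 := by
    rcases hd with rfl | rfl <;> omega
  simp only [e2]
  obtain ⟨-, -, -, -, -, -, -, -, h9, -⟩ := hQ G c τ
  exact h9 c.k 1 le_rfl (by omega) (by omega)

theorem x2a (hM : MRG_S.{u}) (hN : NUMF_S.{u}) (hQ : QQF_S.{u}) (hK : KERF_S.{u})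
    (h : c.Inst τ d M jm) (x w : G) (hs : M.sp 1) :
    Pr M.law (fun ω => 10 * c.q τ < M.Gn ω (M.kb jm x) jm 1 w) ≤ (4 / 5) ^ c.k := by
  have hj := inst_jm h
  obtain ⟨-, -, -, hk, -, hq, -⟩ := hN G c
  have e1 : 1 + jm = jm + 1 := by omega
  have hd := h.d1
  have hm := h.mid
  have hjm : 1 ≤ jm := by rcases hd with rfl | rfl <;> omega
  have key := one_load hM hN hQ h (pmE M (M.kb jm x) (jm + 1)) rfl
    (ok_E M _ (kb_nonneg hK h x) _) (iA := 1) (rA := jm)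
    (chnB τ h.d1 h.mid 1) (winB hK h x) (by omega) hj (gs_x2 hN h)
    ⟨by
      intro h'
      have e2 : wd (posA d) (entB d jm c.k) 1 0 = (d * 1, 1) := by
        simp only [wd, posA, entB, Nat.add_zero]
        rw [if_neg (by omega)]
        congr 1
        omega
      rw [e2] at h'
      have h3 := spw_A h'
      rw [h.sp] at hs
      rcases h' with h' | h'
      · simp at h'
      · have := hs h'.2.2
        omega, by rw [e1]; exact nspw_B h⟩ (by
      rw [e1]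
      simp only [posA, entB, if_true]
      rcases hd with rfl | rfl <;> omega) w w
  refine le_trans (le_of_eq ?_) key
  congr 1
  funext ω
  rw [Gn_sum M ω (M.kb jm x) jm 1 w w, e1]

theorem x2b (hM : MRG_S.{u}) (hN : NUMF_S.{u}) (hQ : QQF_S.{u}) (hK : KERF_S.{u})
    (h : c.Inst τ d M jm) (x w : G) :
    Pr M.law (fun ω => c.X * M.H0 * c.q τ < M.Gn ω (M.kb jm x) jm 1 w) ≤ (4 / 5) ^ c.k := by
  have hj := inst_jm h
  have e1 : 1 + jm = jm + 1 := by omega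
  have hd := h.d1
  have key := one_load' hM hN hQ h (pmE M (M.kb jm x) (jm + 1)) rfl
    (ok_E M _ (kb_nonneg hK h x) _) (iA := 1) (rA := jm)
    (chnB τ h.d1 h.mid 1) (winB hK h x) (by omega) hj (gs_x2 hN h)
    (Or.inr (by rw [e1]; exact nspw_B h)) (by
      rw [e1]
      simp only [posA, entB, if_true]
      rcases hd with rfl | rfl <;> omega) w w
  refine le_trans (le_of_eq ?_) key
  congr 1
  funext ω
  rw [Gn_sum M ω (M.kb jm x) jm 1 w w, e1]

theorem y2a (hM : MRG_S.{u}) (hN : NUMF_S.{u}) (hQ : QQF_S.{u}) (hK : KERF_S.{u})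
    (h : c.Inst τ d M jm) (y u : G) (hs : M.sp (a - 1)) :
    Pr M.law (fun ω => 10 * c.q τ < M.FYm jm ω y (a - 1) u) ≤ (4 / 5) ^ c.k := by
  obtain ⟨-, -, -, hk, -, hq, -⟩ := hN G c
  have hk4 : 4 ≤ c.k := by omega
  have hj := inst_jm' h (by omega)
  obtain ⟨k0, k1, k2⟩ := kap0 hK hQ hk4 h y
  have hd := h.d1
  have hlen := h.len
  obtain ⟨n, hn⟩ : ∃ n, a - 1 = jm + 1 + n := ⟨a - 1 - jm - 1, by omega⟩
  have e1 : a - 1 - jm = n + 1 := by omega
  have e3 : jm + (n + 1) = a - 1 := by omega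
  have g0 := gs_y2 hN hQ h
  rw [e1] at g0
  have key := one_load hM hN hQ h (pmC M jm y (c.gs τ 3 (3 * c.k))) rfl (ok_C M jm y _ k0 k1 k2)
    (iA := jm) (rA := n + 1) (chnC τ h.d1 h.mid (by omega) a) (winC hK hQ hk4 h y) (by omega)
    le_rfl g0
    ⟨nspw_C hk4, by
      rw [e3]
      intro h'
      have e2 : wd (posC d jm) (entC d jm c.k) (a - 1) 0 = (d * (a - 1), 1) := by
        simp only [wd, posC, entC, Nat.add_zero]
        rw [if_neg (by omega), if_neg (by omega)]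
        congr 1
        omega
      rw [e2] at h'
      have h3 := spw_A h'
      rw [h.sp] at hs
      rcases h' with h' | h'
      · simp at h'
      · have := hs h'.2.2
        omega⟩ (by
      rw [e3]
      simp only [posC, entC, if_true]
      rw [if_neg (by omega)]
      rcases hd with rfl | rfl <;> omega) y u
  refine le_trans (le_of_eq ?_) key
  congr 1
  funext ω
  rw [hn, FYm_sum M ω jm y _ k0.ne' n y u]

theorem y2b (hM : MRG_S.{u}) (hN : NUMF_S.{u}) (hQ : QQF_S.{u}) (hK : KERF_S.{u})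
    (h : c.Inst τ d M jm) (y u : G) :
    Pr M.law (fun ω => c.X * M.H0 * c.q τ < M.FYm jm ω y (a - 1) u) ≤ (4 / 5) ^ c.k := by
  obtain ⟨-, -, -, hk, -, hq, -⟩ := hN G c
  have hk4 : 4 ≤ c.k := by omega
  have hj := inst_jm' h (by omega)
  obtain ⟨k0, k1, k2⟩ := kap0 hK hQ hk4 h y
  have hd := h.d1
  have hlen := h.len
  obtain ⟨n, hn⟩ : ∃ n, a - 1 = jm + 1 + n := ⟨a - 1 - jm - 1, by omega⟩
  have e1 : a - 1 - jm = n + 1 := by omega
  have e3 : jm + (n + 1) = a - 1 := by omega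
  have g0 := gs_y2 hN hQ h
  rw [e1] at g0
  have key := one_load' hM hN hQ h (pmC M jm y (c.gs τ 3 (3 * c.k))) rfl (ok_C M jm y _ k0 k1 k2)
    (iA := jm) (rA := n + 1) (chnC τ h.d1 h.mid (by omega) a) (winC hK hQ hk4 h y) (by omega)
    le_rfl g0 (Or.inl (nspw_C hk4)) (by
      rw [e3]
      simp only [posC, entC, if_true]
      rw [if_neg (by omega)]
      rcases hd with rfl | rfl <;> omega) y u
  refine le_trans (le_of_eq ?_) key
  congr 1
  funext ω
  rw [hn, FYm_sum M ω jm y _ k0.ne' n y u]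

end loads

/-- `7 n ^ 5 (4/5) ^ k` is small. -/
theorem beta_le (hN : NUMF_S.{u}) {G : Type u} [Group G] [Fintype G] [DecidableEq G] (c : Ctx G) :
    (7 * (Fintype.card G : ℝ) ^ 5) * (4 / 5) ^ c.k ≤ 1 / (Fintype.card G : ℝ) ^ 14 ∧
      c.X ≤ Fintype.card G := by
  obtain ⟨hX, -, -, -, -, -, -, hXb, hbn, -⟩ := hN G c
  have hX1 : 1 ≤ c.X := le_trans (by norm_num) hX
  have hXn : c.X ≤ Fintype.card G := by
    refine le_trans ?_ (le_trans hXb hbn)
    calc c.X = c.X ^ 1 := (pow_one _).symm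
      _ ≤ _ := pow_le_pow_right₀ hX1 (by norm_num)
  refine ⟨?_, hXn⟩
  set n : ℝ := (Fintype.card G : ℝ) with hn
  have hn7 : 7 ≤ n := by linarith
  have hn0 : 0 < n := by linarith
  have hlog : 0 ≤ Real.log n := Real.log_nonneg (by linarith)
  have hk : 180 * Real.log n ≤ (c.k : ℝ) / 5 := by
    have h1 := c.hkr
    have hr : (2 : ℝ) ≤ c.r0 := by exact_mod_cast c.hr1
    have h2 : (9 : ℝ) ≤ ((c.r0 : ℝ) + 1) ^ 2 := by nlinarith
    have h3 : 900 * (Real.log n + 1) ≤ 100 * ((c.r0 : ℝ) + 1) ^ 2 * (Real.log n + 1) := by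
      refine mul_le_mul_of_nonneg_right (by linarith) (by linarith)
    have h4 : 900 * (Real.log n + 1) ≤ (c.k : ℝ) := le_trans h3 h1
    linarith
  have h1 : (4 / 5 : ℝ) ≤ Real.exp (-(1 / 5)) := by
    have := Real.add_one_le_exp (-(1 / 5 : ℝ))
    linarith
  have h2 : (4 / 5 : ℝ) ^ c.k ≤ Real.exp (-(180 * Real.log n)) := by
    calc (4 / 5 : ℝ) ^ c.k ≤ Real.exp (-(1 / 5)) ^ c.k := pow_le_pow_left₀ (by norm_num) h1 _
      _ = Real.exp ((c.k : ℝ) * -(1 / 5)) := by rw [← Real.exp_nat_mul]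
      _ ≤ _ := by
        refine Real.exp_le_exp.2 ?_
        linarith
  have h3 : Real.exp (-(180 * Real.log n)) = 1 / n ^ 180 := by
    rw [Real.exp_neg, one_div]
    congr 1
    rw [← Real.exp_log hn0, ← Real.exp_nat_mul, Real.log_exp]
    norm_num
  rw [h3] at h2
  have h4 : 7 * n ^ 5 * (4 / 5) ^ c.k ≤ 7 * n ^ 5 * (1 / n ^ 180) :=
    mul_le_mul_of_nonneg_left h2 (by positivity)
  refine le_trans h4 ?_
  rw [mul_one_div, div_le_div_iff₀ (by positivity) (by positivity), one_mul]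
  have h5 : n ^ 180 = n ^ 161 * (n ^ 5 * n ^ 14) := by ring
  have h6 : 7 ≤ n ^ 161 := by
    calc (7 : ℝ) ≤ n := hn7
      _ = n ^ 1 := (pow_one _).symm
      _ ≤ n ^ 161 := pow_le_pow_right₀ (by linarith) (by norm_num)
  rw [h5]
  have h7 : 0 ≤ n ^ 5 * n ^ 14 := by positivity
  nlinarith

/-- LSF -/
theorem lsf (hK : KERF_S.{u}) (hQ : QQF_S.{u}) (hN : NUMF_S.{u}) (hM : MRG_S.{u}) :
    LSF_S.{u, v} := by
  intro G _ _ _ c τ d Val _ a M jm h
  obtain ⟨hβ, hXn⟩ := beta_le hN c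
  obtain ⟨hk100, hkX, ha8, hkk⟩ := num_aX hN h
  obtain ⟨hX6, -⟩ := hN G c
  set β : ℝ := (4 / 5) ^ c.k with hβd
  have hβ0 : 0 ≤ β := by positivity
  have hμ := law_pr M
  set n : ℝ := (Fintype.card G : ℝ) with hn
  have hn1 : 1 ≤ n := by linarith
  have han : (a : ℝ) ≤ n := by linarith
  have ha0 : (0 : ℝ) ≤ a := Nat.cast_nonneg a
  have j1 := inst_jm h
  -- the events
  have P1 := pr_ex hμ (ι := Fin a × Fin a × G × G × G) (fun p ω =>
    (p.1.1 ≤ p.2.1.1 ∧ p.2.1.1 ≤ p.1.1 + 1 ∧ p.2.1.1 ≤ jm) ∧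
      10 * c.q τ / c.b1 < M.lx jm ω p.2.2.1 p.1.1 p.2.1.1 p.2.2.2.1 p.2.2.2.2) β (by
    intro p
    by_cases hp : (p.1.1 ≤ p.2.1.1 ∧ p.2.1.1 ≤ p.1.1 + 1 ∧ p.2.1.1 ≤ jm)
    · refine le_trans (pr_mono hμ fun ω hω => hω.2) ?_
      exact x0 hM hN hQ hK h _ _ _ _ _ hp.1 hp.2.1 hp.2.2
    · rw [pr_false _ fun ω hω => hp hω.1]; exact hβ0)
  have P2 := pr_ex hμ (ι := Fin a × Fin a × G × G × G) (fun p ω =>
    (jm < p.1.1 ∧ p.1.1 ≤ p.2.1.1 ∧ p.2.1.1 ≤ p.1.1 + 1) ∧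
      10 * c.q τ / c.b1 < M.ly jm ω p.2.2.1 p.1.1 p.2.1.1 p.2.2.2.1 p.2.2.2.2) β (by
    intro p
    by_cases hp : (jm < p.1.1 ∧ p.1.1 ≤ p.2.1.1 ∧ p.2.1.1 ≤ p.1.1 + 1)
    · refine le_trans (pr_mono hμ fun ω hω => hω.2) ?_
      exact y0 hM hN hQ hK h _ _ _ _ _ hp.1 hp.2.1 hp.2.2 p.2.1.2
    · rw [pr_false _ fun ω hω => hp hω.1]; exact hβ0)
  have P3 := pr_ex hμ (ι := G × G × G) (fun p ω =>
      10 * c.q τ / c.b1 < M.lz jm ω p.1 p.2.1 p.2.2) β (fun p => z0 hM hN hQ hK h _ _ _)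
  have P4 := pr_ex hμ (ι := G × G) (fun p ω =>
      M.sp 1 ∧ 10 * c.q τ < M.Gn ω (M.kb jm p.1) jm 1 p.2) β (by
    intro p
    by_cases hp : M.sp 1
    · exact le_trans (pr_mono hμ fun ω hω => hω.2) (x2a hM hN hQ hK h _ _ hp)
    · rw [pr_false _ fun ω hω => hp hω.1]; exact hβ0)
  have P5 := pr_ex hμ (ι := G × G) (fun p ω =>
      c.X * M.H0 * c.q τ < M.Gn ω (M.kb jm p.1) jm 1 p.2) β (fun p => x2b hM hN hQ hK h _ _)
  have P6 := pr_ex hμ (ι := G × G) (fun p ω =>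
      M.sp (a - 1) ∧ 10 * c.q τ < M.FYm jm ω p.1 (a - 1) p.2) β (by
    intro p
    by_cases hp : M.sp (a - 1)
    · exact le_trans (pr_mono hμ fun ω hω => hω.2) (y2a hM hN hQ hK h _ _ hp)
    · rw [pr_false _ fun ω hω => hp hω.1]; exact hβ0)
  have P7 := pr_ex hμ (ι := G × G) (fun p ω =>
      c.X * M.H0 * c.q τ < M.FYm jm ω p.1 (a - 1) p.2) β (fun p => y2b hM hN hQ hK h _ _)
  have c5 : (Fintype.card (Fin a × Fin a × G × G × G) : ℝ) ≤ n ^ 5 := by
    simp only [Fintype.card_prod, Fintype.card_fin, Nat.cast_mul]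
    have h1 : (a : ℝ) * (a * (n * (n * n))) ≤ n * (n * (n * (n * n))) := by
      have : 0 ≤ n * (n * n) := by positivity
      refine mul_le_mul han (mul_le_mul_of_nonneg_right han this) (by positivity) (by linarith)
    refine le_trans h1 (le_of_eq (by ring))
  have c3 : (Fintype.card (G × G × G) : ℝ) ≤ n ^ 5 := by
    simp only [Fintype.card_prod, Nat.cast_mul]
    have : n * (n * n) = n ^ 3 := by ring
    rw [this]
    exact pow_le_pow_right₀ hn1 (by norm_num)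
  have c2 : (Fintype.card (G × G) : ℝ) ≤ n ^ 5 := by
    simp only [Fintype.card_prod, Nat.cast_mul]
    have : n * n = n ^ 2 := by ring
    rw [this]
    exact pow_le_pow_right₀ hn1 (by norm_num)
  have m5 := mul_le_mul_of_nonneg_right c5 hβ0
  have m3 := mul_le_mul_of_nonneg_right c3 hβ0
  have m2 := mul_le_mul_of_nonneg_right c2 hβ0
  refine le_trans ?_ hβ
  refine le_trans (pr_mono hμ ?_) (le_trans (pr_or hμ _ _) (le_trans (add_le_add P1
    (le_trans (pr_or hμ _ _) (add_le_add P2 (le_trans (pr_or hμ _ _) (add_le_add P3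
    (le_trans (pr_or hμ _ _) (add_le_add P4 (le_trans (pr_or hμ _ _) (add_le_add P5
    (le_trans (pr_or hμ _ _) (add_le_add P6 P7))))))))))) ?_))
  · intro ω hω
    by_contra hcon
    simp only [not_or, not_exists, not_and, not_lt] at hcon
    obtain ⟨q1, q2, q3, q4, q5, q6, q7⟩ := hcon
    apply hω
    refine ⟨?_, ?_, ?_, ?_, ?_⟩
    · intro j j' x u w h1 h2 h3
      exact q1 (⟨j, by omega⟩, ⟨j', by omega⟩, x, u, w) ⟨h1, h2, h3⟩
    · intro j j' y u w h1 h2 h3 h4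
      exact q2 (⟨j, by omega⟩, ⟨j', h4⟩, y, u, w) ⟨h1, h2, h3⟩
    · intro y v w
      exact q3 (y, v, w)
    · intro x w
      exact ⟨q5 (x, w), fun hs => q4 (x, w) hs⟩
    · intro y u
      exact ⟨q7 (y, u), fun hs => q6 (y, u) hs⟩
  · linarith

end Pool.Agent.Lib.MP_688fd0_co.TF.H17
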