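import Pool.Agent.Lib.MP_688fd0_co.TE.H34.Exx
import Pool.Agent.Lib.MP_688fd0_co.TE.H9.Push

/-!
# Theorem F, high moments of labelled sums

`Z ω = ∑ i, c i * XX (st i) ω`, where `XX` is the label weight of a family of sites (at most one
site at every slot). If `∑ i, c i * ∏ t, gs (st i t) (S t) ≤ L` for all sets `S t` of at most `p`
sites, then `E Z ^ m ≤ L ^ m` for `m ≤ p + 1`.
-/

set_option linter.unusedSectionVars false

namespace Pool.Agent.Lib.MP_688fd0_co.TF.H17

open Pool.Agent.Lib.MP_688fd0_co.TE Pool.Agent.Lib.MP_688fd0_co.TE.H34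

universe u v

variable {V : Type u} {Val : Type v} [Fintype V] [Fintype Val] [DecidableEq V] {a : ℕ}
  (M : LM V Val a)

/-- Factor of one coordinate. -/
noncomputable def sc (o : Option (V × Val)) (u : V) (x : Option Val) : ℝ :=
  match o with
  | some s => if s.1 = u then ind (x = some s.2) / M.P s.1 s.2 else 1
  | none => 1

theorem sc_nonneg (o : Option (V × Val)) (u : V) (x : Option Val) : 0 ≤ sc M o u x := by
  cases o with
  | none => exact zero_le_one
  | some s =>
    simp only [sc]
    split
    · exact div_nonneg (ind_nonneg _) (M.hP0 _ _)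
    · exact zero_le_one

theorem sw_eq (o : Option (V × Val)) (η : V → Option Val) : sw M o η = ∏ u, sc M o u (η u) := by
  cases o with
  | none => simp [sw, sc]
  | some s =>
    have h : ∀ u, sc M (some s) u (η u) =
        if s.1 = u then ind (η s.1 = some s.2) / M.P s.1 s.2 else 1 := by
      intro u
      simp only [sc]
      split
      · rename_i h; rw [h]
      · rfl
    rw [Finset.prod_congr rfl fun u _ => h u, Finset.prod_ite_eq, if_pos (Finset.mem_univ _)]
    rfl

/-- Label weight of a family of sites. -/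
noncomputable def XX (z : Fin a → Option (V × Val)) (ω : Fld a V Val) : ℝ :=
  ∏ t, sw M (z t) (ω t)

theorem xw_eq_XX (ω : Fld a V Val) (z : List (V × Val)) (j : ℕ) (h : j + z.length ≤ a) :
    M.xw ω j z = XX M (fun t => sat j z t.1) ω := xw_prod M ω z j h

/-- Product of label weights. -/
noncomputable def YY (w : List (Fin a → Option (V × Val))) (ω : Fld a V Val) : ℝ :=
  (w.map (fun z => XX M z ω)).prod

/-- Product of the factors of one coordinate. -/
noncomputable def Lw (w : List (Fin a → Option (V × Val))) (t : Fin a) (u : V) (x : Option Val) :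
    ℝ := (w.map (fun z => sc M (z t) u x)).prod

theorem Lw_nonneg (w : List (Fin a → Option (V × Val))) (t : Fin a) (u : V) (x : Option Val) :
    0 ≤ Lw M w t u x := by
  refine List.prod_nonneg ?_
  intro y hy
  rw [List.mem_map] at hy
  obtain ⟨z, _, rfl⟩ := hy
  exact sc_nonneg M _ _ _

theorem YY_eq (w : List (Fin a → Option (V × Val))) (ω : Fld a V Val) :
    YY M w ω = ∏ t, ∏ u, Lw M w t u (ω t u) := by
  induction w with
  | nil => simp [YY, Lw]
  | cons z w ih =>
    have h1 : YY M (z :: w) ω = XX M z ω * YY M w ω := by simp [YY]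
    have h2 : ∀ t u, Lw M (z :: w) t u (ω t u) = sc M (z t) u (ω t u) * Lw M w t u (ω t u) := by
      intro t u
      simp [Lw]
    rw [h1, ih, XX]
    simp only [h2, Finset.prod_mul_distrib, sw_eq]

theorem Ex_law_prod (f : Fin a → V → Option Val → ℝ) :
    Ex M.law (fun ω => ∏ t, ∏ u, f t u (ω t u)) = ∏ t, ∏ u, Ex (optW (M.P u)) (f t u) := by
  have hp : PIPR_S.{u, v} := TE.H9.pipr
  have hp' : PIPR_S.{0, max u v} := TE.H9.pipr
  have h1 := hp'.2 (Fin a) (fun _ => V → Option Val) (fun _ => slw M)
    (fun t η => ∏ u, f t u (η u))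
  have h2 : ∀ t, Ex (slw M) (fun η => ∏ u, f t u (η u)) = ∏ u, Ex (optW (M.P u)) (f t u) :=
    fun t => hp.2 V (fun _ => Option Val) (fun u => optW (M.P u)) (f t)
  refine Eq.trans ?_ (h1.trans (Finset.prod_congr rfl fun t _ => h2 t))
  rfl

open scoped Classical in
/-- The bound for the factor of the site `o`, `S` is the set of the sites which were used. -/
noncomputable def gs (o : Option (V × Val)) (S : Finset (V × Val)) : ℝ :=
  match o with
  | some s => 1 + ind (s ∈ S) / M.P s.1 s.2
  | none => 1

theorem gs_nonneg (o : Option (V × Val)) (S : Finset (V × Val)) : 0 ≤ gs M o S := by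
  cases o with
  | none => exact zero_le_one
  | some s =>
    simp only [gs]
    have := div_nonneg (ind_nonneg (s ∈ S)) (M.hP0 s.1 s.2)
    linarith

open scoped Classical in
/-- The sites of `w` at the slot `t`. -/
noncomputable def SS (w : List (Fin a → Option (V × Val))) (t : Fin a) : Finset (V × Val) :=
  (w.filterMap (fun z => z t)).toFinset

theorem card_SS (w : List (Fin a → Option (V × Val))) (t : Fin a) :
    (SS w t).card ≤ w.length := by
  classical
  unfold SS
  exact le_trans (List.toFinset_card_le _) (List.length_filterMap_le _ _)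

theorem mem_SS {w : List (Fin a → Option (V × Val))} {t : Fin a} {s : V × Val} :
    s ∈ SS w t ↔ ∃ z ∈ w, z t = some s := by
  classical
  unfold SS
  rw [List.mem_toFinset, List.mem_filterMap]

theorem Ex_nonneg {Ω : Type*} [Fintype Ω] {μ : Ω → ℝ} (hμ : IsPr μ) {f : Ω → ℝ}
    (hf : ∀ ω, 0 ≤ f ω) : 0 ≤ Ex μ f :=
  Finset.sum_nonneg fun ω _ => mul_nonneg (hμ.nn ω) (hf ω)

theorem Ex_mono {Ω : Type*} [Fintype Ω] {μ : Ω → ℝ} (hμ : IsPr μ) {f g : Ω → ℝ}
    (h : ∀ ω, f ω ≤ g ω) : Ex μ f ≤ Ex μ g :=
  Finset.sum_le_sum fun ω _ => mul_le_mul_of_nonneg_left (h ω) (hμ.nn ω)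

/-- One coordinate. -/
theorem coord (w : List (Fin a → Option (V × Val))) (t : Fin a) (s : V × Val) :
    Ex (optW (M.P s.1)) (fun x => sc M (some s) s.1 x * Lw M w t s.1 x) ≤
      (1 + ind (s ∈ SS w t) / M.P s.1 s.2) * Ex (optW (M.P s.1)) (Lw M w t s.1) := by
  classical
  set P := M.P s.1 s.2 with hP
  have hP0 : 0 ≤ P := M.hP0 _ _
  have hE0 : 0 ≤ Ex (optW (M.P s.1)) (Lw M w t s.1) :=
    Ex_nonneg (optW_pr M s.1) (Lw_nonneg M w t s.1)
  have hL0 : 0 ≤ Lw M w t s.1 (some s.2) := Lw_nonneg M w t s.1 _
  -- the left side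
  have h1 : Ex (optW (M.P s.1)) (fun x => sc M (some s) s.1 x * Lw M w t s.1 x) =
      P * (1 / P * Lw M w t s.1 (some s.2)) := by
    unfold Ex
    rw [Finset.sum_eq_single (some s.2)]
    · simp only [sc, if_true]
      rw [ind_of trivial]
      rfl
    · intro x _ hx
      simp only [sc, if_true]
      rw [ind_not hx]
      simp
    · intro h; exact absurd (Finset.mem_univ _) h
  -- the right side
  have h2 : P * Lw M w t s.1 (some s.2) ≤ Ex (optW (M.P s.1)) (Lw M w t s.1) := by
    unfold Ex
    exact Finset.single_le_sum (f := fun x => optW (M.P s.1) x * Lw M w t s.1 x)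
      (fun x _ => mul_nonneg ((optW_pr M s.1).nn x) (Lw_nonneg M w t s.1 x))
      (Finset.mem_univ (some s.2))
  have hR : 0 ≤ (1 + ind (s ∈ SS w t) / P) * Ex (optW (M.P s.1)) (Lw M w t s.1) := by
    have := div_nonneg (ind_nonneg (s ∈ SS w t)) hP0
    positivity
  rcases hP0.eq_or_lt with h0 | hpos
  · rw [h1, ← h0, zero_mul]
    rw [← h0] at hR
    exact hR
  · rw [h1]
    have h3 : P * (1 / P * Lw M w t s.1 (some s.2)) = Lw M w t s.1 (some s.2) := by
      field_simp
    rw [h3]
    by_cases hs : s ∈ SS w t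
    · rw [ind_of hs]
      have : Lw M w t s.1 (some s.2) ≤ 1 / P * Ex (optW (M.P s.1)) (Lw M w t s.1) := by
        rw [one_div, inv_mul_eq_div, le_div_iff₀ hpos, mul_comm]
        exact h2
      linarith
    · rw [ind_not hs, zero_div, add_zero, one_mul]
      by_cases hex : ∃ z ∈ w, ∃ e, z t = some (s.1, e)
      · obtain ⟨z, hz, e, he⟩ := hex
        have hne : e ≠ s.2 := by
          intro h
          apply hs
          rw [mem_SS]
          exact ⟨z, hz, by rw [he, h]⟩
        have : Lw M w t s.1 (some s.2) = 0 := by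
          unfold Lw
          apply List.prod_eq_zero
          rw [List.mem_map]
          refine ⟨z, hz, ?_⟩
          rw [he]
          simp only [sc, if_true]
          rw [ind_not (by simpa using hne.symm), zero_div]
        rw [this]; exact hE0
      · have hone : ∀ x, Lw M w t s.1 x = 1 := by
          intro x
          unfold Lw
          apply List.prod_eq_one
          intro y hy
          rw [List.mem_map] at hy
          obtain ⟨z, hz, rfl⟩ := hy
          cases hzt : z t with
          | none => rfl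
          | some s' =>
            simp only [sc]
            rw [if_neg]
            intro h
            exact hex ⟨z, hz, s'.2, by rw [hzt, ← h]⟩
        have : Ex (optW (M.P s.1)) (Lw M w t s.1) = 1 := by
          have h5 : Lw M w t s.1 = fun _ => 1 := funext hone
          rw [h5]; exact Ex_one (optW_pr M s.1)
        rw [this, hone]

theorem Ex_cons (z : Fin a → Option (V × Val)) (w : List (Fin a → Option (V × Val))) :
    Ex M.law (YY M (z :: w)) ≤ Ex M.law (YY M w) * ∏ t, gs M (z t) (SS w t) := by
  have e1 : YY M (z :: w) = fun ω => ∏ t, ∏ u, (fun x => sc M (z t) u x * Lw M w t u x) (ω t u) := by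
    funext ω
    rw [YY_eq]
    refine Finset.prod_congr rfl fun t _ => Finset.prod_congr rfl fun u _ => ?_
    simp [Lw]
  have e2 : YY M w = fun ω => ∏ t, ∏ u, Lw M w t u (ω t u) := funext fun ω => YY_eq M w ω
  rw [e1, e2, Ex_law_prod M (fun t u x => sc M (z t) u x * Lw M w t u x),
    Ex_law_prod M (fun t u => Lw M w t u), ← Finset.prod_mul_distrib]
  have nn : ∀ t u, 0 ≤ Ex (optW (M.P u)) (Lw M w t u) :=
    fun t u => Ex_nonneg (optW_pr M u) (Lw_nonneg M w t u)
  have nn' : ∀ t u, 0 ≤ Ex (optW (M.P u)) (fun x => sc M (z t) u x * Lw M w t u x) :=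
    fun t u => Ex_nonneg (optW_pr M u) (fun x => mul_nonneg (sc_nonneg M _ _ _)
      (Lw_nonneg M w t u x))
  refine Finset.prod_le_prod (fun t _ => Finset.prod_nonneg fun u _ => nn' t u) ?_
  intro t _
  cases hz : z t with
  | none =>
    simp only [gs, mul_one]
    refine le_of_eq (Finset.prod_congr rfl fun u _ => ?_)
    congr 1
    funext x
    simp [sc]
  | some s =>
    have h1 : ∀ u, Ex (optW (M.P u)) (fun x => sc M (some s) u x * Lw M w t u x) ≤
        Ex (optW (M.P u)) (Lw M w t u) *
          (if s.1 = u then (1 + ind (s ∈ SS w t) / M.P s.1 s.2) else 1) := by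
      intro u
      by_cases hu : s.1 = u
      · subst hu
        rw [if_pos rfl, mul_comm]
        exact coord M w t s
      · rw [if_neg hu, mul_one]
        refine le_of_eq ?_
        congr 1
        funext x
        simp [sc, hu]
    have nn'' := nn' t
    rw [hz] at nn''
    refine le_trans (Finset.prod_le_prod (fun u _ => nn'' u) (fun u _ => h1 u)) ?_
    rw [Finset.prod_mul_distrib, Finset.prod_ite_eq, if_pos (Finset.mem_univ _)]
    rfl

theorem law_pr : IsPr M.law :=
  (TE.H9.pipr : PIPR_S.{0, max u v}).1 (Fin a) _ _ fun _ => slw_pr M TE.H9.pipr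

/-- The moment lemma. -/
theorem moment {I : Type*} [Fintype I] (c : I → ℝ) (hc : ∀ i, 0 ≤ c i)
    (st : I → Fin a → Option (V × Val)) (p : ℕ) (L : ℝ) (hL0 : 0 ≤ L)
    (hL : ∀ S : Fin a → Finset (V × Val), (∀ t, (S t).card ≤ p) →
      ∑ i, c i * ∏ t, gs M (st i t) (S t) ≤ L) :
    ∀ m ≤ p + 1, Ex M.law (fun ω => (∑ i, c i * XX M (st i) ω) ^ m) ≤ L ^ m := by
  have gen : ∀ (r : ℕ) (w : List (Fin a → Option (V × Val))), w.length + r ≤ p + 1 →
      Ex M.law (fun ω => YY M w ω * (∑ i, c i * XX M (st i) ω) ^ r) ≤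
        Ex M.law (YY M w) * L ^ r := by
    intro r
    induction r with
    | zero =>
      intro w _
      simp
    | succ r ih =>
      intro w hw
      have e1 : Ex M.law (fun ω => YY M w ω * (∑ i, c i * XX M (st i) ω) ^ (r + 1)) =
          ∑ i, c i * Ex M.law (fun ω => YY M (st i :: w) ω *
            (∑ i, c i * XX M (st i) ω) ^ r) := by
        unfold Ex
        simp only [Finset.mul_sum]
        rw [Finset.sum_comm]
        refine Finset.sum_congr rfl fun ω _ => ?_
        have h1 : ∀ i, YY M (st i :: w) ω = XX M (st i) ω * YY M w ω := by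
          intro i; simp [YY]
        simp only [h1]
        rw [pow_succ, Finset.mul_sum, Finset.mul_sum, Finset.mul_sum]
        refine Finset.sum_congr rfl fun i _ => ?_
        ring
      rw [e1]
      have hEY : 0 ≤ Ex M.law (YY M w) := by
        refine Ex_nonneg (law_pr M) fun ω => ?_
        rw [YY_eq]
        exact Finset.prod_nonneg fun t _ => Finset.prod_nonneg fun u _ => Lw_nonneg M w t u _
      calc ∑ i, c i * Ex M.law (fun ω => YY M (st i :: w) ω *
            (∑ i, c i * XX M (st i) ω) ^ r)
          ≤ ∑ i, c i * ((Ex M.law (YY M w) * ∏ t, gs M (st i t) (SS w t)) * L ^ r) := by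
            refine Finset.sum_le_sum fun i _ => mul_le_mul_of_nonneg_left ?_ (hc i)
            refine le_trans (ih (st i :: w) (by rw [List.length_cons]; omega)) ?_
            exact mul_le_mul_of_nonneg_right (Ex_cons M (st i) w) (pow_nonneg hL0 r)
        _ = (Ex M.law (YY M w) * L ^ r) * ∑ i, c i * ∏ t, gs M (st i t) (SS w t) := by
            rw [Finset.mul_sum]
            refine Finset.sum_congr rfl fun i _ => ?_
            ring
        _ ≤ (Ex M.law (YY M w) * L ^ r) * L := by
            refine mul_le_mul_of_nonneg_left ?_ (mul_nonneg hEY (pow_nonneg hL0 r))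
            exact hL _ fun t => le_trans (card_SS w t) (by omega)
        _ = Ex M.law (YY M w) * L ^ (r + 1) := by ring
  intro m hm
  have h := gen m [] (by simpa using hm)
  have h2 : Ex M.law (YY M ([] : List (Fin a → Option (V × Val)))) = 1 := by
    have : YY M ([] : List (Fin a → Option (V × Val))) = fun _ => 1 := by
      funext ω; simp [YY]
    rw [this]; exact Ex_one (law_pr M)
  rw [h2, one_mul] at h
  refine le_trans (le_of_eq ?_) h
  congr 1
  funext ω
  simp [YY]

/-- Markov's inequality for the moments. -/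
theorem tail {I : Type*} [Fintype I] (c : I → ℝ) (hc : ∀ i, 0 ≤ c i)
    (st : I → Fin a → Option (V × Val)) (p : ℕ) (L s : ℝ) (hL0 : 0 ≤ L) (hs : 0 < s)
    (hL : ∀ S : Fin a → Finset (V × Val), (∀ t, (S t).card ≤ p) →
      ∑ i, c i * ∏ t, gs M (st i t) (S t) ≤ L) :
    Pr M.law (fun ω => s < ∑ i, c i * XX M (st i) ω) ≤ (L / s) ^ p := by
  have h1 := moment M c hc st p L hL0 hL p (by omega)
  have h2 : Pr M.law (fun ω => s < ∑ i, c i * XX M (st i) ω) * s ^ p ≤
      Ex M.law (fun ω => (∑ i, c i * XX M (st i) ω) ^ p) := by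
    unfold Pr Ex
    rw [Finset.sum_mul]
    refine Finset.sum_le_sum fun ω _ => ?_
    rw [mul_assoc]
    refine mul_le_mul_of_nonneg_left ?_ ((law_pr M).nn ω)
    by_cases h : s < ∑ i, c i * XX M (st i) ω
    · rw [ind_of h, one_mul]
      exact pow_le_pow_left₀ hs.le h.le p
    · rw [ind_not h, zero_mul]
      refine pow_nonneg (Finset.sum_nonneg fun i _ => mul_nonneg (hc i) ?_) p
      refine Finset.prod_nonneg fun t _ => ?_
      rw [sw_eq]
      exact Finset.prod_nonneg fun u _ => sc_nonneg M _ _ _
  rw [div_pow, le_div_iff₀ (pow_pos hs p)]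
  exact le_trans h2 h1

end Pool.Agent.Lib.MP_688fd0_co.TF.H17
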