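import Pool.Agent.Lib.MP_688fd0_co.TF.H17.Two
import Pool.Agent.Lib.MP_688fd0_co.TE.H67.Rlaw
import Pool.Agent.Lib.MP_688fd0_co.TF.Iface3

/-!
# Theorem F, the loads as labelled path sums
-/

set_option linter.unusedSectionVars false

namespace Pool.Agent.Lib.MP_688fd0_co.TF.H17

open Pool.Agent.Lib.MP_688fd0_co.TE
open Pool.Agent.Lib.MP_688fd0_co.TE.H92 (PM)

universe u v

variable {V : Type u} {Val : Type v} [Fintype V] [Fintype Val] [DecidableEq V] {a : ℕ}
  (M : LM V Val a)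

/-- The model itself. -/
def pmA : PM V Val := ⟨M.P, M.ex, M.C, M.kap⟩

/-- The trivial model. -/
def pm1 : PM V Val := ⟨M.P, M.ex, fun _ _ _ => 1, M.kap⟩

open scoped Classical in
/-- Paths which end with the function `F` at the slot `e`. -/
noncomputable def pmE (F : V → ℝ) (e : ℕ) : PM V Val :=
  ⟨M.P, M.ex, fun j v y => if j = e then F v else M.C j v y, M.kap⟩

/-- Paths with the dangling slot `jm`. -/
noncomputable def pmC (jm : ℕ) (y : V) (κ : ℝ) : PM V Val :=
  ⟨M.P, M.ex, fun j v u => if j < jm then 0 else if j = jm then κ else M.C j v u,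
    fun j u e => if j = jm then M.kap jm u e * M.kc jm (M.ex u e) y / κ else M.kap j u e⟩

theorem ok_A : (pmA M).Ok M.H0 :=
  ⟨by linarith [M.hH0], M.hP0, M.hC0, M.hk0, M.hkH⟩

theorem ok_1 : (pm1 M).Ok M.H0 :=
  ⟨by linarith [M.hH0], M.hP0, fun _ _ _ => zero_le_one, M.hk0, M.hkH⟩

theorem ok_E (F : V → ℝ) (hF : ∀ v, 0 ≤ F v) (e : ℕ) : (pmE M F e).Ok M.H0 := by
  refine ⟨by linarith [M.hH0], M.hP0, ?_, M.hk0, M.hkH⟩
  intro j v y
  change 0 ≤ (if j = e then F v else M.C j v y)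
  split
  · exact hF v
  · exact M.hC0 _ _ _

theorem ok_C (jm : ℕ) (y : V) (κ : ℝ) (hκ : 0 < κ) (h0 : ∀ v, 0 ≤ M.kc jm v y)
    (h1 : ∀ v, M.kc jm v y ≤ κ) : (pmC M jm y κ).Ok M.H0 := by
  have hk : ∀ u e, M.kap jm u e * M.kc jm (M.ex u e) y / κ ≤ M.kap jm u e := by
    intro u e
    rw [div_le_iff₀ hκ]
    exact mul_le_mul_of_nonneg_left (h1 _) (M.hk0 _ _ _)
  refine ⟨by linarith [M.hH0], M.hP0, ?_, ?_, ?_⟩
  · intro j v u
    change 0 ≤ (if j < jm then (0 : ℝ) else if j = jm then κ else M.C j v u)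
    split
    · exact le_refl 0
    · split
      · exact hκ.le
      · exact M.hC0 _ _ _
  · intro j u e
    change 0 ≤ (if j = jm then M.kap jm u e * M.kc jm (M.ex u e) y / κ else M.kap j u e)
    split
    · exact div_nonneg (mul_nonneg (M.hk0 _ _ _) (h0 _)) hκ.le
    · exact M.hk0 _ _ _
  · intro j u e
    change (if j = jm then M.kap jm u e * M.kc jm (M.ex u e) y / κ else M.kap j u e) ≤
      M.H0 * M.P u e
    split
    · exact le_trans (hk u e) (M.hkH _ _ _)
    · exact M.hkH _ _ _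

theorem pmA_pw : ∀ (l : List (V × Val)) (j : ℕ) (x y : V), (pmA M).pw j x l y = M.pw j x l y
  | [], _, _, _ => rfl
  | s :: l, j, x, y => by
    rw [PM.pw, LM.pw, pmA_pw l]
    rfl

theorem pmE_pw (F : V → ℝ) (e : ℕ) : ∀ (l : List (V × Val)) (j : ℕ) (x y : V),
    j + l.length < e → (pmE M F e).pw j x l y = M.pw j x l y
  | [], j, x, y, h => by
    change (if j = e then F x else M.C j x y) = M.C j x y
    rw [if_neg]
    simp only [List.length_nil] at h
    omega
  | s :: l, j, x, y, h => by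
    simp only [List.length_cons] at h
    rw [PM.pw, LM.pw, pmE_pw F e l (j + 1) _ _ (by omega)]
    change (if j = e then F x else M.C j x s.1) * M.kap j s.1 s.2 * _ = _
    rw [if_neg (by omega)]
    rfl

theorem pmC_pw (jm : ℕ) (z : V) (κ : ℝ) : ∀ (l : List (V × Val)) (j : ℕ) (x y : V),
    jm < j → (pmC M jm z κ).pw j x l y = M.pw j x l y
  | [], j, x, y, h => by
    change (if j < jm then (0 : ℝ) else if j = jm then κ else M.C j x y) = M.C j x y
    rw [if_neg (by omega), if_neg (by omega)]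
  | s :: l, j, x, y, h => by
    rw [PM.pw, LM.pw, pmC_pw jm z κ l (j + 1) _ _ (by omega)]
    change (if j < jm then (0 : ℝ) else if j = jm then κ else M.C j x s.1) *
      (if j = jm then M.kap jm s.1 s.2 * M.kc jm (M.ex s.1 s.2) z / κ else M.kap j s.1 s.2) *
      _ = _
    rw [if_neg (by omega), if_neg (by omega), if_neg (by omega)]
    rfl

variable (ω : Fld a V Val)

/-- `Gn` as a labelled path sum. -/
theorem Gn_sum (F : V → ℝ) : ∀ (n i : ℕ) (v y0 : V),
    M.Gn ω F n i v = sumL n (fun l => (pmE M F (i + n)).pw i v l y0 * M.xw ω i l)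
  | 0, i, v, y0 => by
    change F v = (if i = i + 0 then F v else M.C i v y0) * 1
    rw [if_pos (Nat.add_zero i).symm, mul_one]
  | n + 1, i, v, y0 => by
    have e1 : i + (n + 1) = i + 1 + n := by ring
    rw [LM.Gn, LM.Gop, sumL, Fintype.sum_prod_type]
    refine Finset.sum_congr rfl fun u _ => Finset.sum_congr rfl fun e _ => ?_
    rw [Gn_sum F n (i + 1) (M.ex u e) y0, ← H67.sumL_mul, e1]
    refine H67.sumL_congr _ _ _ fun l _ => ?_
    rw [PM.pw, LM.xw, LM.lw]
    change _ = (if i = i + 1 + n then F v else M.C i v u) * M.kap i u e *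
      (pmE M F (i + 1 + n)).pw (i + 1) (M.ex u e) l y0 * _
    rw [if_neg (by omega)]
    ring

/-- labelled path sum -/
noncomputable def GG (n i : ℕ) (x y : V) : ℝ := sumL n (fun l => M.pw i x l y * M.xw ω i l)

/-- labelled mass from the entry `u` of slot `i` to the entry `v` of slot `i + n` -/
noncomputable def hh : ℕ → ℕ → V → V → ℝ
  | 0, _, u, v => ind (u = v)
  | n + 1, i, u, v => ∑ e, M.lw ω i u e * GG M ω n (i + 1) (M.ex u e) v

theorem GG_hh (n i : ℕ) (x y : V) : GG M ω n i x y = ∑ u, M.C i x u * hh M ω n i u y := by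
  cases n with
  | zero =>
    rw [Finset.sum_eq_single y]
    · simp [GG, sumL, LM.pw, LM.xw, hh, ind_of]
    · intro u _ hu
      simp [hh, ind_not hu]
    · intro h; exact absurd (Finset.mem_univ _) h
  | succ n =>
    rw [GG, sumL, Fintype.sum_prod_type]
    refine Finset.sum_congr rfl fun u _ => ?_
    rw [hh, Finset.mul_sum]
    refine Finset.sum_congr rfl fun e _ => ?_
    rw [GG, ← mul_assoc, ← H67.sumL_mul]
    refine H67.sumL_congr _ _ _ fun l _ => ?_
    rw [LM.pw, LM.xw, LM.lw]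
    ring

theorem Fn_hh : ∀ (n i : ℕ) (F : V → ℝ) (v : V),
    M.Fn ω i F n v = ∑ u, F u * hh M ω n i u v
  | 0, i, F, v => by
    rw [Finset.sum_eq_single v]
    · simp [hh, ind_of, LM.Fn]
    · intro u _ hu
      simp [hh, ind_not hu]
    · intro h; exact absurd (Finset.mem_univ _) h
  | n + 1, i, F, v => by
    have h1 : ∀ u, hh M ω (n + 1) i u v =
        ∑ e, M.lw ω i u e * GG M ω n (i + 1) (M.ex u e) v := fun _ => rfl
    rw [H67.Fn_shift, Fn_hh n (i + 1)]
    simp only [LM.Top, h1, Finset.sum_mul, Finset.mul_sum]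
    rw [Finset.sum_comm]
    refine Finset.sum_congr rfl fun u _ => ?_
    rw [Finset.sum_comm]
    refine Finset.sum_congr rfl fun e _ => ?_
    rw [GG_hh, Finset.mul_sum, Finset.mul_sum]
    refine Finset.sum_congr rfl fun w _ => ?_
    ring

/-- `Fn` from a vertex as a labelled path sum. -/
theorem Fn_sum (n i : ℕ) (x v : V) :
    M.Fn ω i (M.C i x) n v = sumL n (fun l => (pmA M).pw i x l v * M.xw ω i l) := by
  rw [Fn_hh, ← GG_hh, GG]
  refine H67.sumL_congr _ _ _ fun l _ => ?_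
  rw [pmA_pw]

/-- `FYm` as a labelled path sum. -/
theorem FYm_sum (jm : ℕ) (y : V) (κ : ℝ) (hκ : κ ≠ 0) (n : ℕ) (x0 u : V) :
    M.FYm jm ω y (jm + 1 + n) u =
      sumL (n + 1) (fun l => (pmC M jm y κ).pw jm x0 l u * M.xw ω jm l) := by
  have e1 : jm + 1 + n - jm - 1 = n := by omega
  rw [LM.FYm, e1, Fn_hh, sumL, Fintype.sum_prod_type]
  simp only [LM.SY, Finset.sum_mul]
  rw [Finset.sum_comm]
  refine Finset.sum_congr rfl fun u0 _ => ?_
  rw [Finset.sum_comm]
  refine Finset.sum_congr rfl fun e0 _ => ?_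
  have h1 : ∑ w, M.lw ω jm u0 e0 * M.kc jm (M.ex u0 e0) y * M.C (jm + 1) (M.ex u0 e0) w *
      hh M ω n (jm + 1) w u =
      M.lw ω jm u0 e0 * M.kc jm (M.ex u0 e0) y * GG M ω n (jm + 1) (M.ex u0 e0) u := by
    rw [GG_hh, Finset.mul_sum]
    refine Finset.sum_congr rfl fun w _ => ?_
    ring
  rw [h1, GG, ← H67.sumL_mul]
  refine H67.sumL_congr _ _ _ fun l _ => ?_
  rw [PM.pw, LM.xw, LM.lw]
  change _ = (if jm < jm then (0 : ℝ) else if jm = jm then κ else M.C jm x0 u0) *
      (if jm = jm then M.kap jm u0 e0 * M.kc jm (M.ex u0 e0) y / κ else M.kap jm u0 e0) *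
      (pmC M jm y κ).pw (jm + 1) (M.ex u0 e0) l u * _
  rw [pmC_pw M jm y κ l (jm + 1) _ _ (by omega), if_neg (lt_irrefl _), if_pos rfl, if_pos rfl]
  field_simp

end Pool.Agent.Lib.MP_688fd0_co.TF.H17
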