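import Pool.Agent.Lib.MP_688fd0_co.TF.H17.Mom
import Pool.Agent.Lib.MP_688fd0_co.TE.H92.Moment
import Pool.Agent.Lib.MP_688fd0_co.TE.H19.Suml

/-!
# Theorem F, tail bound for a product of two labelled path sums with disjoint slots
-/

set_option linter.unusedSectionVars false

namespace Pool.Agent.Lib.MP_688fd0_co.TF.H17

open Pool.Agent.Lib.MP_688fd0_co.TE Pool.Agent.Lib.MP_688fd0_co.TE.H34
open Pool.Agent.Lib.MP_688fd0_co.TE.H92 (PM)

universe u v

variable {V : Type u} {Val : Type v} [Fintype V] [Fintype Val] [DecidableEq V] {a : ℕ}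
  (M : LM V Val a)

/-- Factor of one slot. -/
noncomputable def gwf (g : V × Val → ℝ) (o : Option (V × Val)) : ℝ :=
  match o with
  | some s => 1 + g s / M.P s.1 s.2
  | none => 1

theorem gw_prod (A : PM V Val) (hA : A.P = M.P) (g : ℕ → V × Val → ℝ) :
    ∀ (z : List (V × Val)) (j : ℕ), j + z.length ≤ a →
      A.gw g j z = ∏ t : Fin a, gwf M (g t.1) (sat j z t.1)
  | [], j, _ => by
    simp only [sat_nil]
    simp [PM.gw, gwf]
  | s :: z, j, h => by
    rw [List.length_cons] at h
    have ih := gw_prod A hA g z (j + 1) (by omega)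
    have hj : j < a := by omega
    rw [PM.gw, ih]
    have h1 : ∀ t : Fin a, gwf M (g t.1) (sat j (s :: z) t.1) =
        (if t = ⟨j, hj⟩ then gwf M (g j) (some s) else 1) *
          gwf M (g t.1) (sat (j + 1) z t.1) := by
      intro t
      by_cases ht : t = ⟨j, hj⟩
      · subst ht
        rw [if_pos rfl, sat_self, sat_succ_self]
        simp [gwf]
      · rw [if_neg ht, one_mul, sat_ne]
        intro h2
        exact ht (Fin.ext h2)
    rw [Finset.prod_congr rfl fun t _ => h1 t, Finset.prod_mul_distrib,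
      Finset.prod_ite_eq' Finset.univ, if_pos (Finset.mem_univ _), hA]
    rfl

theorem sat_none {j t : ℕ} {z : List (V × Val)} (h : t < j ∨ j + z.length ≤ t) :
    sat j z t = none := by
  unfold sat
  split
  · rw [List.getElem?_eq_none]
    omega
  · rfl

/-- The sites of two lists. -/
def st2 (iA iB : ℕ) (z z' : List (V × Val)) (t : Fin a) : Option (V × Val) :=
  match sat iA z t.1 with
  | some s => some s
  | none => sat iB z' t.1

theorem two_tail (A B : PM V Val) (hAP : A.P = M.P) (hBP : B.P = M.P) {HA HB : ℝ}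
    (hA : A.Ok HA) (hB : B.Ok HB) (iA rA iB rB : ℕ) (hdis : iA + rA ≤ iB ∨ iB + rB ≤ iA)
    (ha : iA + rA ≤ a) (hb : iB + rB ≤ a) (xA yA xB yB : V) (p : ℕ) (L s : ℝ) (hL0 : 0 ≤ L)
    (hs : 0 < s)
    (hL : ∀ g : ℕ → V × Val → ℝ, (∀ j s, 0 ≤ g j s) → (∀ j, ∑ s, g j s ≤ (p : ℝ)) →
      A.gs g iA rA xA yA * B.gs g iB rB xB yB ≤ L) :
    Pr M.law (fun ω => s < sumL rA (fun l => A.pw iA xA l yA * M.xw ω iA l) *
      sumL rB (fun l => B.pw iB xB l yB * M.xw ω iB l)) ≤ (L / s) ^ p := by
  classical
  let c : (Fin rA → V × Val) × (Fin rB → V × Val) → ℝ := fun q =>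
    A.pw iA xA (List.ofFn q.1) yA * B.pw iB xB (List.ofFn q.2) yB
  have hc : ∀ q, 0 ≤ c q := fun q =>
    mul_nonneg (H92.PM.pw_nonneg hA _ _ _ _) (H92.PM.pw_nonneg hB _ _ _ _)
  let st : (Fin rA → V × Val) × (Fin rB → V × Val) → Fin a → Option (V × Val) := fun q =>
    st2 iA iB (List.ofFn q.1) (List.ofFn q.2)
  have alt : ∀ q : (Fin rA → V × Val) × (Fin rB → V × Val), ∀ t : Fin a,
      sat iA (List.ofFn q.1) t.1 = none ∨ sat iB (List.ofFn q.2) t.1 = none := by
    intro q t
    by_cases h1 : t.1 < iA ∨ iA + rA ≤ t.1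
    · left
      exact sat_none (by simpa using h1)
    · right
      refine sat_none ?_
      simp only [List.length_ofFn]
      omega
  have hXX : ∀ (ω : Fld a V Val) (q : (Fin rA → V × Val) × (Fin rB → V × Val)),
      XX M (st q) ω = M.xw ω iA (List.ofFn q.1) * M.xw ω iB (List.ofFn q.2) := by
    intro ω q
    rw [xw_eq_XX M ω _ iA (by simpa using ha), xw_eq_XX M ω _ iB (by simpa using hb)]
    unfold XX
    rw [← Finset.prod_mul_distrib]
    refine Finset.prod_congr rfl fun t _ => ?_
    simp only [st, st2]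
    rcases alt q t with h | h
    · rw [h]
      simp [sw]
    · rw [h]
      cases sat iA (List.ofFn q.1) t.1 <;> simp [sw]
  have key := tail M c hc st p L s hL0 hs (by
    intro S hS
    let g : ℕ → V × Val → ℝ := fun t s => if h : t < a then ind (s ∈ S ⟨t, h⟩) else 0
    have hg0 : ∀ j s, 0 ≤ g j s := by
      intro j s
      simp only [g]
      split
      · exact ind_nonneg _
      · exact le_refl 0
    have hgp : ∀ j, ∑ s, g j s ≤ (p : ℝ) := by
      intro j
      simp only [g]
      split
      · rename_i h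
        have h1 : ∑ s, ind (s ∈ S ⟨j, h⟩) = ((S ⟨j, h⟩).card : ℝ) := by
          have h2 : ∀ s, ind (s ∈ S ⟨j, h⟩) = if s ∈ S ⟨j, h⟩ then (1 : ℝ) else 0 := by
            intro s
            by_cases hs' : s ∈ S ⟨j, h⟩
            · rw [ind_of hs', if_pos hs']
            · rw [ind_not hs', if_neg hs']
          simp only [h2]
          rw [Finset.sum_ite_mem]
          simp
        rw [h1]
        exact_mod_cast hS _
      · simp
    have hgs : ∀ q, ∏ t, gs M (st q t) (S t) =
        A.gw g iA (List.ofFn q.1) * B.gw g iB (List.ofFn q.2) := by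
      intro q
      rw [gw_prod M A hAP g _ iA (by simpa using ha), gw_prod M B hBP g _ iB (by simpa using hb),
        ← Finset.prod_mul_distrib]
      refine Finset.prod_congr rfl fun t _ => ?_
      have h1 : ∀ o, gs M o (S t) = gwf M (g t.1) o := by
        intro o
        cases o with
        | none => rfl
        | some s => simp [gs, gwf, g]
      rw [h1]
      simp only [st, st2]
      rcases alt q t with h | h
      · rw [h]
        simp [gwf]
      · rw [h]
        cases sat iA (List.ofFn q.1) t.1 <;> simp [gwf]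
    refine le_trans (le_of_eq ?_) (hL g hg0 hgp)
    unfold PM.gs
    rw [H19.sumL_ofFn, H19.sumL_ofFn, Finset.sum_mul_sum, ← Finset.sum_product']
    refine Finset.sum_congr rfl fun q _ => ?_
    rw [hgs]
    simp only [c]
    ring)
  refine le_trans (le_of_eq ?_) key
  congr 1
  funext ω
  congr 1
  rw [H19.sumL_ofFn, H19.sumL_ofFn, Finset.sum_mul_sum, ← Finset.sum_product']
  refine Finset.sum_congr rfl fun q _ => ?_
  rw [hXX]
  simp only [c]
  ring

end Pool.Agent.Lib.MP_688fd0_co.TF.H17
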