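import Pool.Agent.Lib.MP_688fd0_co.TF.H17.Pms
import Pool.Agent.Lib.MP_688fd0_co.TF.H17.Chain

/-!
# Theorem F, window bounds for the instances
-/

set_option linter.unusedSectionVars false

namespace Pool.Agent.Lib.MP_688fd0_co.TF.H17

open Pool.Agent.Lib.MP_688fd0_co.TE
open Pool.Agent.Lib.MP_688fd0_co.TE.H92 (PM)

universe u v

/-- Positions of the plain chain. -/
def posA (d i : ℕ) : ℕ := d * i
/-- Positions of the plain chain. -/
def entA (d i : ℕ) : ℕ := d * i + 1
/-- Positions of a chain which ends with `kb`. -/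
def entB (d jm k i : ℕ) : ℕ := if i = jm + 1 then 6 * k + 6 else d * i + 1
/-- Positions of a chain with the dangling slot `jm`. -/
def posC (d jm i : ℕ) : ℕ := if i = jm then 3 else d * i
/-- Positions of a chain with the dangling slot `jm`. -/
def entC (d jm k i : ℕ) : ℕ := if i = jm then 3 * k + 3 else d * i + 1

theorem not_spw_of {τ : Bool} {p : ℕ × ℕ} (h : 2 ≤ p.2) : ¬ spw τ p := by
  unfold spw
  omega

theorem spw_A {τ : Bool} {d i : ℕ} (h : spw τ (d * i, 1)) : (d * i) % 3 = 1 := by
  unfold spw at h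
  rcases h with h | h
  · simp at h
  · exact h.2.1

theorem chnA (τ : Bool) {d : ℕ} (hd : d = 1 ∨ d = 2) (i0 e0 : ℕ) :
    Chn τ (posA d) (entA d) i0 e0 := by
  refine ⟨?_, ?_, ?_⟩
  · intro j _ _
    simp only [posA, entA]
    rcases hd with rfl | rfl <;> omega
  · intro i t _ _ h
    by_contra ht
    refine not_spw_of ?_ h
    simp only [wd, posA, entA]
    rcases hd with rfl | rfl <;> omega
  · intro i _ _ ⟨h1, h2⟩
    have e1 : wd (posA d) (entA d) i 0 = (d * i, 1) := by
      simp only [wd, posA, entA, Nat.add_zero]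
      congr 1
      omega
    have e2 : wd (posA d) (entA d) (i + 1) 0 = (d * (i + 1), 1) := by
      simp only [wd, posA, entA, Nat.add_zero]
      congr 1
      omega
    rw [e1] at h1
    rw [e2] at h2
    have h3 := spw_A h1
    have h4 := spw_A h2
    rcases hd with rfl | rfl <;> omega

theorem chnB (τ : Bool) {d jm k : ℕ} (hd : d = 1 ∨ d = 2) (hmid : d * (jm + 1) = 3 * k + 3)
    (i0 : ℕ) : Chn τ (posA d) (entB d jm k) i0 (jm + 1) := by
  refine ⟨?_, ?_, ?_⟩
  · intro j _ hj
    simp only [posA, entB]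
    rw [if_neg (by omega)]
    rcases hd with rfl | rfl <;> omega
  · intro i t _ hit h
    by_contra ht
    refine not_spw_of ?_ h
    simp only [wd, posA, entB]
    split
    · rename_i h5
      have h6 : d * i ≤ d * (jm + 1) := Nat.mul_le_mul_left d (by omega)
      omega
    · rcases hd with rfl | rfl <;> omega
  · intro i _ hi ⟨h1, h2⟩
    have e1 : wd (posA d) (entB d jm k) i 0 = (d * i, 1) := by
      simp only [wd, posA, entB, Nat.add_zero]
      rw [if_neg (by omega)]
      congr 1
      omega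
    rw [e1] at h1
    have h3 := spw_A h1
    by_cases he : i + 1 = jm + 1
    · refine not_spw_of ?_ h2
      simp only [wd, posA, entB, Nat.add_zero]
      rw [if_pos he, he]
      omega
    · have e2 : wd (posA d) (entB d jm k) (i + 1) 0 = (d * (i + 1), 1) := by
        simp only [wd, posA, entB, Nat.add_zero]
        rw [if_neg he]
        congr 1
        omega
      rw [e2] at h2
      have h4 := spw_A h2
      rcases hd with rfl | rfl <;> omega

theorem chnC (τ : Bool) {d jm k : ℕ} (hd : d = 1 ∨ d = 2) (hmid : d * (jm + 1) = 3 * k + 3)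
    (hk : 1 ≤ k) (e0 : ℕ) : Chn τ (posC d jm) (entC d jm k) jm e0 := by
  refine ⟨?_, ?_, ?_⟩
  · intro j hj _
    simp only [posC, entC]
    rw [if_neg (by omega)]
    split
    · rename_i h; rw [h, hmid]; omega
    · rcases hd with rfl | rfl <;> omega
  · intro i t hi _ h
    by_contra ht
    refine not_spw_of ?_ h
    simp only [wd, posC, entC]
    by_cases h1 : i = jm
    · rw [if_pos h1, if_neg (by omega)]
      have h6 : d * (jm + 1) ≤ d * (i + t) := Nat.mul_le_mul_left d (by omega)
      omega
    · rw [if_neg h1, if_neg (by omega)]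
      rcases hd with rfl | rfl <;> omega
  · intro i hi _ ⟨h1, h2⟩
    have e2 : wd (posC d jm) (entC d jm k) (i + 1) 0 = (d * (i + 1), 1) := by
      simp only [wd, posC, entC, Nat.add_zero]
      rw [if_neg (by omega), if_neg (by omega)]
      congr 1
      omega
    by_cases he : i = jm
    · refine not_spw_of ?_ h1
      simp only [wd, posC, entC, Nat.add_zero]
      rw [if_pos he, if_pos he]
      omega
    · have e1 : wd (posC d jm) (entC d jm k) i 0 = (d * i, 1) := by
        simp only [wd, posC, entC, Nat.add_zero]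
        rw [if_neg he, if_neg he]
        congr 1
        omega
      rw [e1] at h1
      rw [e2] at h2
      have h3 := spw_A h1
      have h4 := spw_A h2
      rcases hd with rfl | rfl <;> omega

section inst

variable {G : Type u} [Group G] [Fintype G] [DecidableEq G] {c : Ctx G} {τ : Bool} {d : ℕ}
  {Val : Type v} [Fintype Val] {a : ℕ} {M : LM G Val a} {jm : ℕ}

theorem K_le_gs (hK : KERF_S.{u}) (i n : ℕ) (x y : G) : c.K τ i n x y ≤ c.gs τ i n := by
  obtain ⟨-, -, -, -, -, h, -⟩ := hK G c τ
  exact h i n x y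

theorem K_nonneg (hK : KERF_S.{u}) (i n : ℕ) (x y : G) : 0 ≤ c.K τ i n x y := by
  obtain ⟨h, -⟩ := hK G c τ
  exact (h i n).1.nn x y

theorem pmA_fk (i r : ℕ) (x y : G) : (pmA M).fk i r x y = M.fk i r x y := by
  unfold PM.fk LM.fk
  exact H67.sumL_congr _ _ _ fun l _ => pmA_pw M l i x y

theorem winA (hK : KERF_S.{u}) (h : c.Inst τ d M jm) (i r : ℕ) (x y : G) (hir : i + r ≤ a) :
    (pmA M).fk i r x y ≤ EE c τ (posA d) (entA d) i r := by
  rw [pmA_fk, h.fk i r x y hir]
  have e1 : wd (posA d) (entA d) i r = (d * i, d * r + 1) := by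
    simp only [wd, posA, entA]
    congr 1
    rw [Nat.mul_add]; omega
  rw [EE, e1]
  exact K_le_gs hK _ _ _ _

theorem pmE_fk_lt (F : G → ℝ) (e i r : ℕ) (x y : G) (h : i + r < e) :
    (pmE M F e).fk i r x y = M.fk i r x y := by
  unfold PM.fk LM.fk
  exact H67.sumL_congr _ _ _ fun l hl => pmE_pw M F e l i x y (by omega)

theorem pmE_fk_eq (hK : KERF_S.{u}) (h : c.Inst τ d M jm) (F : G → ℝ) (e : ℕ) :
    ∀ (r i : ℕ) (x y : G), i + r = e →
      (pmE M F e).fk i r x y = ∑ w, c.K τ (d * i) (d * r) x w * F w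
  | 0, i, x, y, he => by
    have h1 : (pmE M F e).fk i 0 x y = F x := by
      rw [H92.PM.fk_zero]
      change (if i = e then F x else M.C i x y) = F x
      rw [if_pos (by omega)]
    have h2 : c.K τ (d * i) (d * 0) = 1 := rfl
    rw [h1, h2]
    simp [Matrix.one_apply]
  | r + 1, i, x, y, he => by
    rw [H92.PM.fk_succ, Fintype.sum_prod_type]
    have h1 : ∀ (u : G) (e' : Val), (pmE M F e).C i x u * (pmE M F e).kap i u e' *
        (pmE M F e).fk (i + 1) r ((pmE M F e).ex u e') y =
        M.C i x u * M.kap i u e' * (fun w => ∑ w', c.K τ (d * (i + 1)) (d * r) w w' * F w')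
          (M.ex u e') := by
      intro u e'
      have h2 : (pmE M F e).C i x u = M.C i x u := by
        change (if i = e then F x else M.C i x u) = M.C i x u
        rw [if_neg (by omega)]
      rw [h2, pmE_fk_eq hK h F e r (i + 1) _ y (by omega)]
      rfl
    refine Eq.trans (Finset.sum_congr rfl fun u _ => Finset.sum_congr rfl fun e' _ => h1 u e') ?_
    refine (inst_slot hK h i x (fun w => ∑ w', c.K τ (d * (i + 1)) (d * r) w w' * F w')).trans ?_
    have h3 : d * (i + 1) = d * i + d := by ring
    have h4 : d * (r + 1) = d + d * r := by ring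
    simp only [Finset.mul_sum, h3, h4]
    rw [Finset.sum_comm]
    refine Finset.sum_congr rfl fun w _ => ?_
    rw [← K_mul hK (d * i) d (d * r) x w, Finset.sum_mul]
    refine Finset.sum_congr rfl fun w' _ => ?_
    ring

theorem winB (hK : KERF_S.{u}) (h : c.Inst τ d M jm) (x0 : G) (i r : ℕ) (x y : G)
    (hir : i + r ≤ jm + 1) :
    (pmE M (M.kb jm x0) (jm + 1)).fk i r x y ≤ EE c τ (posA d) (entB d jm c.k) i r := by
  have hj := inst_jm h
  rcases Nat.lt_or_ge (i + r) (jm + 1) with h1 | h1
  · rw [pmE_fk_lt _ _ _ _ _ _ h1, h.fk i r x y (by omega)]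
    have e1 : wd (posA d) (entB d jm c.k) i r = (d * i, d * r + 1) := by
      simp only [wd, posA, entB]
      rw [if_neg (by omega)]
      congr 1
      rw [Nat.mul_add]; omega
    rw [EE, e1]
    exact K_le_gs hK _ _ _ _
  · have h2 : i + r = jm + 1 := by omega
    rw [pmE_fk_eq hK h _ _ r i x y h2]
    have h3 : d * i + d * r = 3 * c.k + 3 := by rw [← Nat.mul_add, h2, h.mid]
    have h4 : ∀ w, c.K τ (d * i) (d * r) x w * M.kb jm x0 w =
        c.K τ (d * i) (d * r) x w * c.K τ (d * i + d * r) (3 * c.k + 3) w x0 := by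
      intro w
      rw [inst_kb hK h, h3]
      congr 1
      exact K_symm hK (by omega) _ _
    rw [Finset.sum_congr rfl fun w _ => h4 w, K_mul hK]
    have e1 : wd (posA d) (entB d jm c.k) i r = (d * i, d * r + (3 * c.k + 3)) := by
      simp only [wd, posA, entB]
      rw [if_pos h2]
      congr 1
      omega
    rw [EE, e1]
    exact K_le_gs hK _ _ _ _

theorem pmE_pw_last (y0 : G) : ∀ (l : List (G × Val)) (i : ℕ) (x y : G), i + l.length = a →
    (pmE M (fun v => M.C a v y0) a).pw i x l y = M.pw i x l y0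
  | [], i, x, y, h => by
    simp only [List.length_nil, Nat.add_zero] at h
    change (if i = a then M.C a x y0 else M.C i x y) = M.C i x y0
    rw [if_pos h, h]
  | s :: l, i, x, y, h => by
    simp only [List.length_cons] at h
    rw [PM.pw, LM.pw, pmE_pw_last y0 l (i + 1) _ _ (by omega)]
    change (if i = a then M.C a x y0 else M.C i x s.1) * M.kap i s.1 s.2 * _ = _
    rw [if_neg (by omega)]
    rfl

theorem winE (hK : KERF_S.{u}) (h : c.Inst τ d M jm) (y0 : G) (i r : ℕ) (x y : G)
    (hir : i + r ≤ a) :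
    (pmE M (fun v => M.C a v y0) a).fk i r x y ≤ EE c τ (posA d) (entA d) i r := by
  rcases Nat.lt_or_ge (i + r) a with h1 | h1
  · rw [pmE_fk_lt _ _ _ _ _ _ h1, ← pmA_fk]
    exact winA hK h i r x y hir
  · have h2 : (pmE M (fun v => M.C a v y0) a).fk i r x y = (pmA M).fk i r x y0 := by
      rw [pmA_fk]
      unfold PM.fk LM.fk
      exact H67.sumL_congr _ _ _ fun l hl => pmE_pw_last y0 l i x y (by omega)
    rw [h2]
    exact winA hK h i r x y0 hir

theorem pmC_fk_gt (y0 : G) (κ : ℝ) (i r : ℕ) (x y : G) (h : jm < i) :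
    (pmC M jm y0 κ).fk i r x y = M.fk i r x y := by
  unfold PM.fk LM.fk
  exact H67.sumL_congr _ _ _ fun l _ => pmC_pw M jm y0 κ l i x y h

theorem winC (hK : KERF_S.{u}) (hQ : QQF_S.{u}) (hk : 4 ≤ c.k) (h : c.Inst τ d M jm) (y0 : G)
    (i r : ℕ) (x y : G) (hir : i + r ≤ a) :
    (pmC M jm y0 (c.gs τ 3 (3 * c.k))).fk i r x y ≤ EE c τ (posC d jm) (entC d jm c.k) i r := by
  have hκ : 0 < c.gs τ 3 (3 * c.k) := by
    obtain ⟨-, hq, -⟩ := hQ G c τ
    unfold Ctx.gs
    rw [if_pos (by omega)]
    exact hq _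
  rcases Nat.lt_trichotomy i jm with h1 | h1 | h1
  · -- zero
    have h2 : (pmC M jm y0 (c.gs τ 3 (3 * c.k))).fk i r x y = 0 := by
      have hC : ∀ u, (pmC M jm y0 (c.gs τ 3 (3 * c.k))).C i x u = 0 := by
        intro u
        change (if i < jm then (0 : ℝ) else _) = 0
        rw [if_pos h1]
      cases r with
      | zero => rw [H92.PM.fk_zero, hC]
      | succ r =>
        rw [H92.PM.fk_succ]
        refine Finset.sum_eq_zero fun s _ => ?_
        rw [hC]
        ring
    rw [h2]
    exact EE_nonneg hQ c τ _ _ _ _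
  · subst h1
    cases r with
    | zero =>
      rw [H92.PM.fk_zero]
      change (if i < i then (0 : ℝ) else if i = i then c.gs τ 3 (3 * c.k) else M.C i x y) ≤ _
      rw [if_neg (lt_irrefl _), if_pos rfl]
      have e1 : wd (posC d i) (entC d i c.k) i 0 = (3, 3 * c.k) := by
        simp only [wd, posC, entC, Nat.add_zero, if_true]
        congr 1
      rw [EE, e1]
    | succ t =>
      have h2 : (pmC M i y0 (c.gs τ 3 (3 * c.k))).fk i (t + 1) x y =
          ∑ u, ∑ e, M.kap i u e * (M.kc i (M.ex u e) y0 * M.fk (i + 1) t (M.ex u e) y) := by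
        rw [H92.PM.fk_succ, Fintype.sum_prod_type]
        refine Finset.sum_congr rfl fun u _ => Finset.sum_congr rfl fun e _ => ?_
        change (if i < i then (0 : ℝ) else if i = i then c.gs τ 3 (3 * c.k) else M.C i x u) *
          (if i = i then M.kap i u e * M.kc i (M.ex u e) y0 / c.gs τ 3 (3 * c.k)
            else M.kap i u e) * (pmC M i y0 (c.gs τ 3 (3 * c.k))).fk (i + 1) t (M.ex u e) y = _
        rw [if_neg (lt_irrefl _), if_pos rfl, if_pos rfl, pmC_fk_gt _ _ _ _ _ _ (by omega)]
        field_simp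
      have h3 : ∀ u e, M.kap i u e * (M.kc i (M.ex u e) y0 * M.fk (i + 1) t (M.ex u e) y) =
          ∑ w, M.kap i u e * ind (M.ex u e = w) * (M.kc i w y0 * M.fk (i + 1) t w y) := by
        intro u e
        rw [Finset.sum_eq_single (M.ex u e)]
        · rw [ind_of rfl, mul_one]
        · intro w _ hw
          rw [ind_not (Ne.symm hw)]; ring
        · intro h'; exact absurd (Finset.mem_univ _) h'
      have h4 : ∑ u, ∑ e, M.kap i u e * (M.kc i (M.ex u e) y0 * M.fk (i + 1) t (M.ex u e) y) =
          ∑ w, M.kc i w y0 * M.fk (i + 1) t w y := by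
        simp only [h3]
        have e5 : ∀ u : G, ∑ e : Val, ∑ w : G, M.kap i u e * ind (M.ex u e = w) *
            (M.kc i w y0 * M.fk (i + 1) t w y) =
            ∑ w : G, ∑ e : Val, M.kap i u e * ind (M.ex u e = w) *
            (M.kc i w y0 * M.fk (i + 1) t w y) := fun u => Finset.sum_comm
        rw [Finset.sum_congr rfl fun u _ => e5 u, Finset.sum_comm]
        refine Finset.sum_congr rfl fun w _ => ?_
        simp only [← Finset.sum_mul]
        rw [inst_kx hK h, one_mul]
      have hmid := h.mid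
      have h5 : ∀ w, M.kc i w y0 * M.fk (i + 1) t w y =
          c.K τ 3 (3 * c.k) y0 w * c.K τ (3 + 3 * c.k) (d * t + 1) w y := by
        intro w
        rw [inst_kc h, h.fk (i + 1) t w y (by omega), hmid,
          K_symm hK (i := 3 * c.k + 3) (i' := 3) (n := 3 * c.k) (by omega)]
        rw [Nat.add_comm 3 (3 * c.k)]
      rw [h2, h4, Finset.sum_congr rfl fun w _ => h5 w, K_mul hK]
      have e1 : wd (posC d i) (entC d i c.k) i (t + 1) = (3, 3 * c.k + (d * t + 1)) := by
        simp only [wd, posC, entC, if_true]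
        rw [if_neg (by omega)]
        congr 1
        have : d * (i + (t + 1)) = 3 * c.k + 3 + d * t := by rw [← hmid]; ring
        omega
      rw [EE, e1]
      exact K_le_gs hK _ _ _ _
  · rw [pmC_fk_gt _ _ _ _ _ _ h1, ← pmA_fk]
    refine le_trans (winA hK h i r x y hir) (le_of_eq ?_)
    have e1 : wd (posC d jm) (entC d jm c.k) i r = wd (posA d) (entA d) i r := by
      simp only [wd, posC, entC, posA, entA]
      rw [if_neg (by omega), if_neg (by omega)]
    rw [EE, EE, e1]

end inst

end Pool.Agent.Lib.MP_688fd0_co.TF.H17
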